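import Pool.Agent.H785R2.ABC.A12

/-!
Counting lemmas: integers with a small radical, and integers in many residue classes.
-/

set_option autoImplicit false
set_option linter.unusedSectionVars false

namespace Pool.Agent.K4H5.HF

open Finset
open Pool.Agent.H785R2.ABC (rad StmtA1 StmtA2 stmtA1 stmtA2)

/-- number of integers of an interval in a residue class (after Pool.Agent.TH4.HS.Cls) -/
theorem card_class (T : ℤ) (hT : 0 ≤ T) {q : ℕ} (hq : 0 < q) (x : ℤ) :
    (((Icc (-T) T).filter fun t => (q : ℤ) ∣ t - x).card : ℝ) ≤ (2 * T + 1) / q + 1 := by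
  have hq' : (0 : ℤ) < q := by exact_mod_cast hq
  have h1 := Int.Ioc_filter_modEq_card (-T - 1) T hq' x
  have h2 : ((Ioc (-T - 1) T).filter fun t => t ≡ x [ZMOD q]) =
      (Icc (-T) T).filter fun t => (q : ℤ) ∣ t - x := by
    ext t
    rw [mem_filter, mem_filter, mem_Ioc, mem_Icc]
    constructor
    · rintro ⟨h3, h4⟩
      exact ⟨⟨by omega, h3.2⟩, h4.symm.dvd⟩
    · rintro ⟨h3, h4⟩
      exact ⟨⟨by omega, h3.2⟩, (Int.modEq_iff_dvd.mpr h4).symm⟩
  rw [h2] at h1
  have hqQ : (0 : ℚ) < q := by exact_mod_cast hq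
  have hTQ : (0 : ℚ) ≤ (T : ℚ) := by exact_mod_cast hT
  have h3 : ((((Icc (-T) T).filter fun t => (q : ℤ) ∣ t - x).card : ℤ) : ℚ) ≤
      (2 * T + 1) / q + 1 := by
    rw [h1]
    rw [Int.cast_max, max_le_iff]
    constructor
    · push_cast
      have h4 := Int.floor_le (((T : ℚ) - x) / ((q : ℤ) : ℚ))
      have h5 := Int.lt_floor_add_one (((-T - 1 : ℤ) - x : ℚ) / ((q : ℤ) : ℚ))
      push_cast at h4 h5
      have h6 : ((T : ℚ) - x) / q - (-(T : ℚ) - 1 - x) / q = (2 * T + 1) / q := by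
        field_simp; ring
      linarith
    · push_cast
      positivity
  have h4 : (((((Icc (-T) T).filter fun t => (q : ℤ) ∣ t - x).card : ℤ) : ℚ) : ℝ) ≤
      (((2 * T + 1) / q + 1 : ℚ) : ℝ) := by exact_mod_cast h3
  push_cast at h4
  exact h4

/-- number of integers which lie in given classes modulo all primes dividing `A` -/
theorem card_hits (k : ℕ) (hk : 1 ≤ k) (Zr : ℕ → Finset ℤ) (T : ℤ) (hT : 0 ≤ T) {A : ℕ}
    (hA : Squarefree A) (hZr : ∀ p ∈ A.primeFactors, (Zr p).card ≤ k) (Z : Finset ℤ)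
    (hZ : ∀ t ∈ Z, |t| ≤ T ∧ ∀ p ∈ A.primeFactors, ∃ s ∈ Zr p, (p : ℤ) ∣ t - s) :
    (Z.card : ℝ) ≤ (k : ℝ) ^ A.primeFactors.card * ((2 * T + 1) / (A : ℝ) + 1) := by
  classical
  have hA0 : 0 < A := Nat.pos_of_ne_zero hA.ne_zero
  set U := A.primeFactors.pi (fun p => Zr p) with hU
  have hsub : Z ⊆ U.biUnion (fun s => Z.filter fun t => ∀ p (hp : p ∈ A.primeFactors),
      (p : ℤ) ∣ t - s p hp) := by
    intro t ht
    have h1 := (hZ t ht).2
    choose! s hs using h1
    rw [mem_biUnion]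
    refine ⟨fun p hp => s p, ?_, ?_⟩
    · rw [hU, Finset.mem_pi]
      intro p hp
      exact (hs p hp).1
    · rw [mem_filter]
      exact ⟨ht, fun p hp => (hs p hp).2⟩
  have hpart : ∀ s ∈ U, ((Z.filter fun t => ∀ p (hp : p ∈ A.primeFactors),
      (p : ℤ) ∣ t - s p hp).card : ℝ) ≤ (2 * T + 1) / (A : ℝ) + 1 := by
    intro s _
    set W := Z.filter fun t => ∀ p (hp : p ∈ A.primeFactors),
      (p : ℤ) ∣ t - s p hp with hW
    have hTR : (0 : ℝ) ≤ (T : ℝ) := by exact_mod_cast hT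
    rcases W.eq_empty_or_nonempty with h0 | ⟨x, hx⟩
    · rw [h0, card_empty, Nat.cast_zero]
      positivity
    · have h1 : W ⊆ (Icc (-T) T).filter fun t => ((A : ℕ) : ℤ) ∣ t - x := by
        intro t ht
        rw [hW, mem_filter] at ht hx
        rw [mem_filter, mem_Icc]
        refine ⟨abs_le.mp (hZ t ht.1).1, ?_⟩
        have h2 : ((A : ℕ) : ℤ) = ∏ p ∈ A.primeFactors, (p : ℤ) := by
          have h3 := Nat.prod_primeFactors_of_squarefree hA
          conv_lhs => rw [← h3]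
          push_cast
          rfl
        rw [h2]
        apply Finset.prod_dvd_of_coprime
        · intro p hp q hq hpq
          have hp' := Nat.prime_of_mem_primeFactors (Finset.mem_coe.mp hp)
          have hq' := Nat.prime_of_mem_primeFactors (Finset.mem_coe.mp hq)
          exact Nat.isCoprime_iff_coprime.mpr ((Nat.coprime_primes hp' hq').mpr hpq)
        · intro p hp
          have h4 := dvd_sub (ht.2 p hp) (hx.2 p hp)
          have h5 : t - s p hp - (x - s p hp) = t - x := by ring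
          rwa [h5] at h4
      have h2 := card_class T hT hA0 x
      refine le_trans ?_ h2
      exact_mod_cast card_le_card h1
  have h1 : (Z.card : ℝ) ≤ ∑ s ∈ U, ((Z.filter fun t => ∀ p (hp : p ∈ A.primeFactors),
      (p : ℤ) ∣ t - s p hp).card : ℝ) := by
    exact_mod_cast (card_le_card hsub).trans card_biUnion_le
  refine h1.trans ((sum_le_sum hpart).trans ?_)
  rw [sum_const, nsmul_eq_mul]
  have hTR : (0 : ℝ) ≤ (T : ℝ) := by exact_mod_cast hT
  refine mul_le_mul_of_nonneg_right ?_ (by positivity)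
  rw [hU, card_pi]
  have h3 : ∏ p ∈ A.primeFactors, (Zr p).card ≤ ∏ _p ∈ A.primeFactors, k :=
    prod_le_prod (fun _ _ => Nat.zero_le _) hZr
  rw [prod_const] at h3
  exact_mod_cast h3

theorem card_sqf_div (N : ℕ) :
    (N.divisors.filter fun A => Squarefree A).card ≤ 2 ^ N.primeFactors.card := by
  classical
  rw [← card_powerset]
  apply card_le_card_of_injOn (fun A => A.primeFactors)
  · intro A hA
    rw [mem_coe, mem_filter, Nat.mem_divisors] at hA
    rw [mem_coe, mem_powerset]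
    exact Nat.primeFactors_mono hA.1.1 hA.1.2
  · intro A hA A' hA' h
    rw [mem_coe, mem_filter] at hA hA'
    have h1 := Nat.prod_primeFactors_of_squarefree hA.2
    have h2 := Nat.prod_primeFactors_of_squarefree hA'.2
    have h3 : A.primeFactors = A'.primeFactors := h
    rw [← h1, ← h2, h3]

/-- few integers lie in given classes modulo the primes dividing a large divisor of `N` -/
theorem count_div (k : ℕ) (hk : 1 ≤ k) (Zr : ℕ → Finset ℤ) (T : ℤ)
    (hT : 0 ≤ T) (N : ℕ) (hN : N ≠ 0) (Y : ℝ) (hY : 0 < Y)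
    (hZr : ∀ p ∈ N.primeFactors, (Zr p).card ≤ k) (Z : Finset ℤ)
    (hZ : ∀ t ∈ Z, |t| ≤ T ∧ ∃ A : ℕ, Squarefree A ∧ A ∣ N ∧ Y < A ∧
      ∀ p ∈ A.primeFactors, ∃ s ∈ Zr p, (p : ℤ) ∣ t - s) :
    (Z.card : ℝ) ≤ (2 * k : ℝ) ^ N.primeFactors.card * ((2 * T + 1) / Y + 1) := by
  classical
  have hT' : (0 : ℝ) ≤ (T : ℝ) := by exact_mod_cast hT
  have hk' : (1 : ℝ) ≤ k := by exact_mod_cast hk
  set I : Finset ℕ := (N.divisors.filter fun A => Squarefree A).filter fun A : ℕ => Y < (A : ℝ)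
    with hI
  have hsub : Z ⊆ I.biUnion (fun A => Z.filter fun t => ∀ p ∈ A.primeFactors,
      ∃ s ∈ Zr p, (p : ℤ) ∣ t - s) := by
    intro t ht
    obtain ⟨-, A, h1, h2, h3, h4⟩ := hZ t ht
    rw [mem_biUnion]
    refine ⟨A, ?_, mem_filter.mpr ⟨ht, h4⟩⟩
    rw [hI, mem_filter, mem_filter, Nat.mem_divisors]
    exact ⟨⟨⟨h2, hN⟩, h1⟩, h3⟩
  have h1 : (Z.card : ℝ) ≤ ∑ A ∈ I, ((Z.filter fun t => ∀ p ∈ A.primeFactors,
      ∃ s ∈ Zr p, (p : ℤ) ∣ t - s).card : ℝ) := by
    exact_mod_cast (card_le_card hsub).trans card_biUnion_le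
  refine h1.trans ?_
  have h2 : ∀ A ∈ I, ((Z.filter fun t => ∀ p ∈ A.primeFactors,
      ∃ s ∈ Zr p, (p : ℤ) ∣ t - s).card : ℝ) ≤
      (k : ℝ) ^ N.primeFactors.card * ((2 * T + 1) / Y + 1) := by
    intro A hA
    rw [hI, mem_filter, mem_filter, Nat.mem_divisors] at hA
    obtain ⟨⟨⟨hA1, -⟩, hA2⟩, hA3⟩ := hA
    have hA0 : (0 : ℝ) < A := hY.trans hA3
    refine (card_hits k hk Zr T hT hA2 (fun p hp => hZr p (Nat.primeFactors_mono hA1 hN hp)) _
      fun t ht => ?_).trans ?_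
    · rw [mem_filter] at ht
      exact ⟨(hZ t ht.1).1, ht.2⟩
    · have h3 : (2 * (T : ℝ) + 1) / (A : ℝ) ≤ (2 * T + 1) / Y :=
        div_le_div_of_nonneg_left (by linarith) (by positivity) hA3.le
      have h4 : A.primeFactors.card ≤ N.primeFactors.card :=
        card_le_card (Nat.primeFactors_mono hA1 hN)
      exact mul_le_mul (pow_le_pow_right₀ hk' h4) (by linarith) (by positivity) (by positivity)
  refine (sum_le_sum h2).trans ?_
  rw [sum_const, nsmul_eq_mul, mul_pow, mul_assoc]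
  have h3 : (I.card : ℝ) ≤ 2 ^ N.primeFactors.card := by
    have := (card_le_card (filter_subset (fun A : ℕ => Y < (A : ℝ))
      (N.divisors.filter fun A => Squarefree A))).trans (card_sqf_div N)
    exact_mod_cast this
  exact mul_le_mul_of_nonneg_right h3 (by positivity)

/-- few integers have a small radical outside of given primes -/
theorem count_rad {ε : ℝ} (hε : 0 < ε) : ∃ D : ℝ, 0 < D ∧ ∀ X m : ℕ, 1 ≤ X → 1 ≤ m → m ≤ X →
    ∀ R : ℝ, 0 ≤ R →
      (((Icc 1 X).filter fun w : ℕ => ((∏ p ∈ w.primeFactors \ m.primeFactors, p : ℕ) : ℝ) ≤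
        R).card : ℝ) ≤ D * (X : ℝ) ^ ε * R := by
  classical
  obtain ⟨D₁, hD₁, h1⟩ := stmtA1 2 (by norm_num) (ε / 2) (by positivity)
  obtain ⟨D₂, hD₂, h2⟩ := stmtA2 (ε / 2) (by positivity)
  refine ⟨D₁ * D₂, by positivity, ?_⟩
  intro X m hX hm hmX R hR
  set W := (Icc 1 X).filter fun w : ℕ => ((∏ p ∈ w.primeFactors \ m.primeFactors, p : ℕ) : ℝ) ≤ R
    with hW
  set J := (m.primeFactors.powerset ×ˢ Icc 1 ⌊R⌋₊).image
    (fun x : Finset ℕ × ℕ => (∏ p ∈ x.1, p) * x.2) with hJ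
  have hmaps : ∀ w ∈ W, rad w ∈ J := by
    intro w hw
    rw [hW, mem_filter] at hw
    rw [hJ, mem_image]
    refine ⟨(w.primeFactors ∩ m.primeFactors, ∏ p ∈ w.primeFactors \ m.primeFactors, p), ?_, ?_⟩
    · rw [mem_product, mem_powerset, mem_Icc]
      refine ⟨inter_subset_right, ?_, Nat.le_floor hw.2⟩
      show 0 < ∏ p ∈ w.primeFactors \ m.primeFactors, p
      exact prod_pos fun p hp => (Nat.prime_of_mem_primeFactors (mem_sdiff.1 hp).1).pos
    · show (∏ p ∈ w.primeFactors ∩ m.primeFactors, p) *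
        (∏ p ∈ w.primeFactors \ m.primeFactors, p) = ∏ p ∈ w.primeFactors, p
      rw [← prod_union]
      · congr 1
        ext p
        simp only [mem_union, mem_inter, mem_sdiff]
        tauto
      · rw [disjoint_left]
        intro p hp hp2
        exact (mem_sdiff.1 hp2).2 (mem_inter.1 hp).2
  have hX0 : (0 : ℝ) < X := by exact_mod_cast hX
  have hfib : ∀ g ∈ J, ((W.filter fun w => rad w = g).card : ℝ) ≤ D₂ * (X : ℝ) ^ (ε / 2) := by
    intro g _
    refine le_trans ?_ (h2 X hX g)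
    have : (W.filter fun w => rad w = g) ⊆ (Icc 1 X).filter fun d => rad d = g := by
      intro w hw
      rw [mem_filter, hW, mem_filter] at hw
      rw [mem_filter]
      exact ⟨hw.1.1, hw.2⟩
    exact_mod_cast card_le_card this
  have hcard : (W.card : ℝ) = ∑ g ∈ J, ((W.filter fun w => rad w = g).card : ℝ) := by
    exact_mod_cast card_eq_sum_card_fiberwise (f := rad) (s := W) (t := J)
      (fun w hw => hmaps w hw)
  have hJc : (J.card : ℝ) ≤ D₁ * (X : ℝ) ^ (ε / 2) * R := by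
    have h3 : J.card ≤ 2 ^ m.primeFactors.card * ⌊R⌋₊ := by
      rw [hJ]
      refine card_image_le.trans ?_
      rw [card_product, card_powerset, Nat.card_Icc]
      simp
    have h4 : (J.card : ℝ) ≤ 2 ^ m.primeFactors.card * (⌊R⌋₊ : ℝ) := by exact_mod_cast h3
    have h5 : (2 : ℝ) ^ m.primeFactors.card ≤ D₁ * (X : ℝ) ^ (ε / 2) := by
      refine (h1 m hm).trans (mul_le_mul_of_nonneg_left ?_ hD₁.le)
      exact Real.rpow_le_rpow (by positivity) (by exact_mod_cast hmX) (by positivity)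
    exact h4.trans (mul_le_mul h5 (Nat.floor_le hR) (by positivity) (by positivity))
  rw [hcard]
  refine (sum_le_sum hfib).trans ?_
  rw [sum_const, nsmul_eq_mul]
  refine (mul_le_mul_of_nonneg_right hJc (by positivity)).trans (le_of_eq ?_)
  have h6 : (X : ℝ) ^ ε = (X : ℝ) ^ (ε / 2) * (X : ℝ) ^ (ε / 2) := by
    rw [← Real.rpow_add hX0]
    congr 1
    ring
  rw [h6]
  ring

end Pool.Agent.K4H5.HF
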