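import Pool.Agent.K4H5.HF.Def
import Mathlib.LinearAlgebra.Vandermonde
import Mathlib.MeasureTheory.Measure.Haar.OfBasis
import Mathlib.MeasureTheory.Measure.Lebesgue.Complex
import Mathlib.Algebra.Polynomial.Eval.Degree
import Mathlib.Analysis.SpecialFunctions.Log.Basic

/-!
The `L²` norm of the differentials of a hyperelliptic curve.
-/

set_option autoImplicit false
set_option linter.unusedSectionVars false

open Polynomial MeasureTheory
open scoped ENNReal

namespace Pool.Agent.K4H5.HF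

theorem eval_le {N : ℕ} {F : ℂ[X]} (hF : F.natDegree ≤ N) {M : ℝ} (hM : ∀ i, ‖F.coeff i‖ ≤ M)
    {x : ℂ} (hx : ‖x‖ ≤ 1) : ‖F.eval x‖ ≤ (N + 1) * M := by
  rw [eval_eq_sum_range]
  refine (norm_sum_le _ _).trans ?_
  have h0 : 0 ≤ M := (norm_nonneg _).trans (hM 0)
  have h1 : ∀ i ∈ Finset.range (F.natDegree + 1), ‖F.coeff i * x ^ i‖ ≤ M := by
    intro i _
    rw [norm_mul, norm_pow]
    have h2 : ‖x‖ ^ i ≤ 1 := pow_le_one₀ (norm_nonneg _) hx
    nlinarith [hM i, norm_nonneg (F.coeff i), mul_le_mul (hM i) h2 (by positivity) h0]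
  refine (Finset.sum_le_card_nsmul _ _ M h1).trans ?_
  rw [Finset.card_range, nsmul_eq_mul]
  refine mul_le_mul_of_nonneg_right ?_ h0
  push_cast
  have : (F.natDegree : ℝ) ≤ N := by exact_mod_cast hF
  linarith

theorem vol_lower (g N : ℕ) : ∃ κ : ℝ, 0 < κ ∧ ∀ F : ℂ[X], F.natDegree ≤ N → ∀ M : ℝ, 1 ≤ M →
    (∀ i, ‖F.coeff i‖ ≤ M) →
      ENNReal.ofReal (κ / ((N + 1) * M) ^ g) ≤
        ∫⁻ x : Fin g → ℂ, ‖(Matrix.vandermonde x).det‖ₑ ^ 2 / ∏ k, ‖F.eval (x k)‖ₑ := by
  classical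
  -- a point
  set x₀ : Fin g → ℂ := fun k => ((k : ℕ) : ℂ) / (g + 1) with hx₀
  have hg : ((g : ℂ) + 1) ≠ 0 := by exact_mod_cast Nat.succ_ne_zero g
  have hinj : Function.Injective x₀ := by
    intro a b hab
    rw [hx₀] at hab
    simp only at hab
    rw [div_left_inj' hg] at hab
    apply Fin.ext
    exact_mod_cast hab
  have hdet : (Matrix.vandermonde x₀).det ≠ 0 := Matrix.det_vandermonde_ne_zero_iff.2 hinj
  have hcont : Continuous fun x : Fin g → ℂ => (Matrix.vandermonde x).det := by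
    simp only [Matrix.det_vandermonde]
    fun_prop
  set r : ℝ := ‖(Matrix.vandermonde x₀).det‖ / 2 with hr
  have hr0 : 0 < r := by
    have := norm_pos_iff.2 hdet
    positivity
  set U : Set (Fin g → ℂ) := {x | r < ‖(Matrix.vandermonde x).det‖} ∩ Metric.ball 0 1 with hU
  have hUo : IsOpen U := (isOpen_lt continuous_const hcont.norm).inter Metric.isOpen_ball
  have hUne : U.Nonempty := by
    refine ⟨x₀, ?_, ?_⟩
    · show r < ‖(Matrix.vandermonde x₀).det‖
      rw [hr]
      have := norm_pos_iff.2 hdet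
      linarith
    · rw [mem_ball_zero_iff, pi_norm_lt_iff one_pos]
      intro k
      rw [hx₀]
      simp only [norm_div]
      have h1 : ‖((g : ℂ) + 1)‖ = (g : ℝ) + 1 := by
        have : ((g : ℂ) + 1) = ((g + 1 : ℕ) : ℂ) := by push_cast; rfl
        rw [this, Complex.norm_natCast]
        push_cast
        rfl
      rw [h1, Complex.norm_natCast, div_lt_one (by positivity)]
      have : ((k : ℕ) : ℝ) < g := by exact_mod_cast k.2
      linarith
  have hμ0 : volume U ≠ 0 := (hUo.measure_pos volume hUne).ne'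
  have hμ1 : volume U ≠ ∞ := by
    refine ne_top_of_le_ne_top ?_ (measure_mono (Set.inter_subset_right (s := _)))
    exact measure_ball_lt_top.ne
  set κ : ℝ := (volume U).toReal * r ^ 2 with hκ
  have hκ0 : 0 < κ := mul_pos (ENNReal.toReal_pos hμ0 hμ1) (by positivity)
  refine ⟨κ, hκ0, fun F hF M hM hc => ?_⟩
  have hM0 : 0 < M := by linarith
  set b : ℝ := (N + 1) * M with hb
  have hb0 : 0 < b := by positivity
  have h1 : ∫⁻ _x in U, ENNReal.ofReal (r ^ 2 / b ^ g) ≤
      ∫⁻ x : Fin g → ℂ, ‖(Matrix.vandermonde x).det‖ₑ ^ 2 / ∏ k, ‖F.eval (x k)‖ₑ := by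
    refine (setLIntegral_mono' hUo.measurableSet fun x hx => ?_).trans
      (setLIntegral_le_lintegral _ _)
    have h2 : ENNReal.ofReal (r ^ 2) ≤ ‖(Matrix.vandermonde x).det‖ₑ ^ 2 := by
      rw [← ofReal_norm, ← ENNReal.ofReal_pow (norm_nonneg _)]
      exact ENNReal.ofReal_le_ofReal (pow_le_pow_left₀ hr0.le (le_of_lt hx.1) 2)
    have h3 : ∏ k, ‖F.eval (x k)‖ₑ ≤ ENNReal.ofReal (b ^ g) := by
      have h4 : ∀ k ∈ Finset.univ, ‖F.eval (x k)‖ₑ ≤ ENNReal.ofReal b := by
        intro k _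
        rw [← ofReal_norm]
        refine ENNReal.ofReal_le_ofReal (eval_le hF hc ?_)
        have h5 := hx.2
        rw [mem_ball_zero_iff] at h5
        exact (norm_le_pi_norm x k).trans h5.le
      refine (Finset.prod_le_prod' h4).trans (le_of_eq ?_)
      rw [Finset.prod_const, Finset.card_univ, Fintype.card_fin, ENNReal.ofReal_pow hb0.le]
    rw [ENNReal.ofReal_div_of_pos (by positivity)]
    exact ENNReal.div_le_div h2 h3
  refine le_trans (le_of_eq ?_) h1
  rw [setLIntegral_const]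
  have h2 : volume U = ENNReal.ofReal (volume U).toReal := (ENNReal.ofReal_toReal hμ1).symm
  rw [h2, ← ENNReal.ofReal_mul (by positivity), hκ]
  congr 1
  ring

/-- the archimedean estimate -/
theorem arch (g N : ℕ) : ∃ C : ℝ, 0 ≤ C ∧ ∀ F : ℂ[X], F.natDegree ≤ N → ∀ M : ℝ, 1 ≤ M →
    (∀ i, ‖F.coeff i‖ ≤ M) → -(1 / 2) * Real.log (vol g F) ≤ C + g / 2 * Real.log M := by
  obtain ⟨κ, hκ, h⟩ := vol_lower g N
  refine ⟨|1 / 2 * Real.log κ| + g / 2 * Real.log (N + 1), ?_, fun F hF M hM hc => ?_⟩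
  · have : 0 ≤ Real.log ((N : ℝ) + 1) := Real.log_nonneg (by
      have : (0 : ℝ) ≤ N := Nat.cast_nonneg N
      linarith)
    positivity
  have hN : 0 ≤ Real.log ((N : ℝ) + 1) := Real.log_nonneg (by
      have : (0 : ℝ) ≤ N := Nat.cast_nonneg N
      linarith)
  have hlM : 0 ≤ Real.log M := Real.log_nonneg hM
  have hM0 : 0 < M := by linarith
  have h1 := h F hF M hM hc
  have habs := abs_nonneg (1 / 2 * Real.log κ)
  by_cases htop : ∫⁻ x : Fin g → ℂ, ‖(Matrix.vandermonde x).det‖ₑ ^ 2 /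
      ∏ k, ‖F.eval (x k)‖ₑ = ∞
  · have : vol g F = 0 := by
      unfold vol
      rw [htop]
      rfl
    rw [this, Real.log_zero, mul_zero]
    positivity
  · have h2 : κ / ((N + 1) * M) ^ g ≤ vol g F := by
      unfold vol
      exact (ENNReal.ofReal_le_iff_le_toReal htop).1 h1
    have h3 : 0 < κ / (((N : ℝ) + 1) * M) ^ g := by positivity
    have h4 := Real.log_le_log h3 h2
    rw [Real.log_div hκ.ne' (by positivity), Real.log_pow, Real.log_mul (by positivity)
      (by positivity)] at h4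
    have h5 := neg_abs_le (1 / 2 * Real.log κ)
    nlinarith

end Pool.Agent.K4H5.HF
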