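import Pool.Agent.K4H5.HF.Pen

/-!
The bad members of a pencil.
-/

set_option autoImplicit false
set_option linter.unusedSectionVars false

open NumberField IsDedekindDomain Polynomial Finset

namespace Pool.Agent.K4H5.HF

variable {K : Type} [Field K] [NumberField K]

/-- the shift of one coefficient -/
def shj {R : Type} [CommRing R] {N : ℕ} (j : Fin (N + 1)) (c : Fin (N + 1) → R) (t : R) :
    Fin (N + 1) → R := fun i => c i + if i = j then t else 0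

theorem shj_zero {R : Type} [CommRing R] {N : ℕ} (c : Fin (N + 1) → R) (t : R) :
    shj 0 c t = sh c t := rfl

theorem sh_last' {R : Type} [CommRing R] {N : ℕ} (hN : 1 ≤ N) (c : Fin (N + 1) → R) (t : R) :
    sh c t (Fin.last N) = c (Fin.last N) := by
  unfold sh
  rw [if_neg, add_zero]
  intro h
  have := congrArg Fin.val h
  rw [Fin.val_last] at this
  simp at this
  omega

theorem tr_sh {R : Type} [CommRing R] {m : ℕ} (c : Fin (m + 1 + 1) → R) (t : R) :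
    tr (sh c t) = sh (tr c) t := by
  funext i
  unfold tr sh
  congr 1
  have : i.castSucc = 0 ↔ i = 0 := by
    constructor
    · intro h
      apply Fin.ext
      have := congrArg Fin.val h
      simpa using this
    · rintro rfl
      rfl
  simp only [this]

variable {m : ℕ}

/-- a prime with a place where the form may have two nodes -/
def Pa (c : Fin (m + 1 + 1) → 𝓞 K) (p : ℕ) : Prop := p.Prime ∧
  ∃ v : HeightOneSpectrum (𝓞 K), (p : 𝓞 K) ∈ v.asIdeal ∧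
    ((m + 1 : ℕ) : 𝓞 K) * c (Fin.last (m + 1)) ∉ v.asIdeal ∧ Ee c ∈ v.asIdeal ∧
      Dd c ∈ v.asIdeal

/-- a prime with a place where there is a zero at infinity and a double zero -/
def Pb (c : Fin (m + 1 + 1) → 𝓞 K) (p : ℕ) : Prop := p.Prime ∧
  ∃ v : HeightOneSpectrum (𝓞 K), (p : 𝓞 K) ∈ v.asIdeal ∧ c (Fin.last (m + 1)) ∈ v.asIdeal ∧
    (m : 𝓞 K) * tr c (Fin.last m) ∉ v.asIdeal ∧ Dd (tr c) ∈ v.asIdeal

/-- a prime with a place where there is a double zero at infinity -/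
def Pc (c : Fin (m + 1 + 1) → 𝓞 K) (p : ℕ) : Prop := p.Prime ∧
  ∃ v : HeightOneSpectrum (𝓞 K), (p : 𝓞 K) ∈ v.asIdeal ∧ c (Fin.last (m + 1)) ∈ v.asIdeal ∧
    tr c (Fin.last m) ∈ v.asIdeal

/-- the product of primes with a property is large -/
def Big (P : ℕ → Prop) (Y : ℝ) : Prop :=
  ∃ S : Finset ℕ, (∀ p ∈ S, P p) ∧ Y < ((∏ p ∈ S, p : ℕ) : ℝ)

/-- the radical of the discriminant is small -/
def Rs (c : Fin (m + 1 + 1) → 𝓞 K) (Y : ℝ) : Prop := Dd c = 0 ∨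
  ((∏ p ∈ (Nm (Dd c)).primeFactors \
    (Nm (((2 * (m + 1) : ℕ) : 𝓞 K) * c (Fin.last (m + 1)))).primeFactors, p : ℕ) : ℝ) ≤ Y

/-- bad members of the pencil -/
def Bad1 (ε : ℝ) (H : ℕ) (c : Fin (m + 1 + 1) → 𝓞 K) : Prop :=
  Rs c ((H : ℝ) ^ (1 - ε)) ∨ Big (Pa c) ((H : ℝ) ^ ε) ∨ Big (Pb c) ((H : ℝ) ^ ε)

/-- bad members of the second pencil -/
def Bad2 (ε : ℝ) (H : ℕ) (c : Fin (m + 1 + 1) → 𝓞 K) : Prop := Big (Pc c) ((H : ℝ) ^ ε)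

theorem rs_count (K : Type) [Field K] [NumberField K] (m : ℕ) (hm : 1 ≤ m) (C₀ : ℝ)
    (hC₀ : 1 ≤ C₀) (ε : ℝ) (hε : 0 < ε) (hε1 : ε ≤ 1) : ∃ C : ℝ, 0 < C ∧ ∀ H : ℕ, 1 ≤ H →
    ∀ c : Fin (m + 1 + 1) → 𝓞 K, Sz (C₀ * H) c → c (Fin.last (m + 1)) ≠ 0 → ∀ Z : Finset ℤ,
      (∀ t ∈ Z, t ∈ Icc (-(H : ℤ)) H ∧ Rs (sh c (t : 𝓞 K)) ((H : ℝ) ^ (1 - ε))) →
        (Z.card : ℝ) ≤ C * (H : ℝ) ^ (1 - ε / 2) := by
  obtain ⟨C, hC, h⟩ := rad_count K (N := m + 1) (by omega) C₀ hC₀ ε hε hε1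
  refine ⟨C, hC, fun H hH c hc hcl Z hZ => h H hH c hc hcl Z fun t ht => ?_⟩
  obtain ⟨h1, h2⟩ := hZ t ht
  unfold Rs at h2
  rw [sh_last' (by omega)] at h2
  exact ⟨h1, h2⟩

theorem pa_count (K : Type) [Field K] [NumberField K] (m : ℕ) (hm : 1 ≤ m) (C₀ : ℝ)
    (hC₀ : 1 ≤ C₀) (ε : ℝ) (hε : 0 < ε) (hε1 : ε ≤ 1) : ∃ C : ℝ, 0 < C ∧ ∀ H : ℕ, 1 ≤ H →
    ∀ c : Fin (m + 1 + 1) → 𝓞 K, Sz (C₀ * H) c → Ee c ≠ 0 → ∀ Z : Finset ℤ,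
      (∀ t ∈ Z, t ∈ Icc (-(H : ℤ)) H ∧ Big (Pa (sh c (t : 𝓞 K))) ((H : ℝ) ^ ε)) →
        (Z.card : ℝ) ≤ C * (H : ℝ) ^ (1 - ε / 2) := by
  classical
  obtain ⟨B, A, hB, hb⟩ := Ee_nm K (m + 1)
  set d := Module.finrank ℚ K with hd
  obtain ⟨C, hC, h⟩ := cls_count (d * (m + 1 - 1)) ((B * C₀ ^ A) ^ d) (A * d) ε hε hε1
  refine ⟨C, hC, fun H hH c hc hE Z hZ => ?_⟩
  have hHR : (1 : ℝ) ≤ H := by exact_mod_cast hH
  refine h H hH (Nm (Ee c)) (Nm_ne hE) ?_ (fun t p => Pa (sh c (t : 𝓞 K)) p) ?_ ?_ Z hZ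
  · have h1 := hb c (C₀ * H) (by nlinarith) hc
    refine h1.trans (le_of_eq ?_)
    rw [mul_pow C₀ (H : ℝ), ← mul_assoc, mul_pow, ← pow_mul]
  · rintro t p ⟨hp, v, hv1, hv2, hv3, -⟩
    refine ⟨hp, p_dvd_Nm hp hv1 ?_⟩
    rw [sh_last' (by omega)] at hv2
    exact (Ee_sh_mem (by omega) v c hv2 _).1 hv3
  · intro p hp
    obtain ⟨W, hW1, hW2⟩ := cls_union (K := K) hp (m + 1 - 1)
      (fun v t => ((m + 1 : ℕ) : 𝓞 K) * c (Fin.last (m + 1)) ∉ v.asIdeal ∧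
        Dd (sh c (t : 𝓞 K)) ∈ v.asIdeal) (by
      intro v hv
      by_cases h1 : ((m + 1 : ℕ) : 𝓞 K) * c (Fin.last (m + 1)) ∈ v.asIdeal
      · exact ⟨∅, by simp, fun t ht => absurd h1 ht.1⟩
      · obtain ⟨W, hW1, hW2⟩ := cls_one (by omega) hp v hv c h1
        exact ⟨W, hW1, fun t ht => hW2 t ht.2⟩)
    refine ⟨W, hW1, ?_⟩
    rintro t ⟨-, v, hv1, hv2, -, hv4⟩
    rw [sh_last' (by omega)] at hv2
    exact hW2 v hv1 t ⟨hv2, hv4⟩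

theorem last_nm {C₀ : ℝ} {H : ℕ} {c : Fin (m + 1 + 1) → 𝓞 K} (hc : Sz (C₀ * H) c) :
    (Nm (c (Fin.last (m + 1))) : ℝ) ≤ C₀ ^ Module.finrank ℚ K *
      (H : ℝ) ^ Module.finrank ℚ K := by
  rw [← mul_pow]
  exact Nm_le fun σ => hc _ σ

theorem pb_count (K : Type) [Field K] [NumberField K] (m : ℕ) (hm : 2 ≤ m) (C₀ : ℝ)
    (ε : ℝ) (hε : 0 < ε) (hε1 : ε ≤ 1) : ∃ C : ℝ, 0 < C ∧ ∀ H : ℕ, 1 ≤ H →
    ∀ c : Fin (m + 1 + 1) → 𝓞 K, Sz (C₀ * H) c → c (Fin.last (m + 1)) ≠ 0 → ∀ Z : Finset ℤ,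
      (∀ t ∈ Z, t ∈ Icc (-(H : ℤ)) H ∧ Big (Pb (sh c (t : 𝓞 K))) ((H : ℝ) ^ ε)) →
        (Z.card : ℝ) ≤ C * (H : ℝ) ^ (1 - ε / 2) := by
  classical
  set d := Module.finrank ℚ K with hd
  obtain ⟨C, hC, h⟩ := cls_count (d * (m - 1)) (C₀ ^ d) d ε hε hε1
  refine ⟨C, hC, fun H hH c hc hcl Z hZ => ?_⟩
  refine h H hH (Nm (c (Fin.last (m + 1)))) (Nm_ne hcl) (last_nm hc)
    (fun t p => Pb (sh c (t : 𝓞 K)) p) ?_ ?_ Z hZ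
  · rintro t p ⟨hp, v, hv1, hv2, -, -⟩
    refine ⟨hp, p_dvd_Nm hp hv1 ?_⟩
    rwa [sh_last' (by omega)] at hv2
  · intro p hp
    obtain ⟨W, hW1, hW2⟩ := cls_union (K := K) hp (m - 1)
      (fun v t => (m : 𝓞 K) * tr c (Fin.last m) ∉ v.asIdeal ∧
        Dd (sh (tr c) (t : 𝓞 K)) ∈ v.asIdeal) (by
      intro v hv
      by_cases h1 : (m : 𝓞 K) * tr c (Fin.last m) ∈ v.asIdeal
      · exact ⟨∅, by simp, fun t ht => absurd h1 ht.1⟩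
      · obtain ⟨W, hW1, hW2⟩ := cls_one hm hp v hv (tr c) h1
        exact ⟨W, hW1, fun t ht => hW2 t ht.2⟩)
    refine ⟨W, hW1, ?_⟩
    rintro t ⟨-, v, hv1, -, hv3, hv4⟩
    rw [tr_sh, sh_last' (by omega)] at hv3
    rw [tr_sh] at hv4
    exact hW2 v hv1 t ⟨hv3, hv4⟩

theorem pc_count (K : Type) [Field K] [NumberField K] (m : ℕ) (C₀ : ℝ)
    (ε : ℝ) (hε : 0 < ε) (hε1 : ε ≤ 1) : ∃ C : ℝ, 0 < C ∧ ∀ H : ℕ, 1 ≤ H →
    ∀ c : Fin (m + 1 + 1) → 𝓞 K, Sz (C₀ * H) c → c (Fin.last (m + 1)) ≠ 0 → ∀ Z : Finset ℤ,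
      (∀ t ∈ Z, t ∈ Icc (-(H : ℤ)) H ∧
        Bad2 ε H (shj (Fin.last m).castSucc c (t : 𝓞 K))) →
        (Z.card : ℝ) ≤ C * (H : ℝ) ^ (1 - ε / 2) := by
  classical
  set d := Module.finrank ℚ K with hd
  obtain ⟨C, hC, h⟩ := cls_count (d * 1) (C₀ ^ d) d ε hε hε1
  refine ⟨C, hC, fun H hH c hc hcl Z hZ => ?_⟩
  have hlast : ∀ t : 𝓞 K, shj (Fin.last m).castSucc c t (Fin.last (m + 1)) =
      c (Fin.last (m + 1)) := by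
    intro t
    unfold shj
    rw [if_neg, add_zero]
    intro h
    have := congrArg Fin.val h
    simp at this
  have htr : ∀ t : 𝓞 K, tr (shj (Fin.last m).castSucc c t) (Fin.last m) =
      tr c (Fin.last m) + t := by
    intro t
    unfold tr shj
    rw [if_pos rfl]
  refine h H hH (Nm (c (Fin.last (m + 1)))) (Nm_ne hcl) (last_nm hc)
    (fun t p => Pc (shj (Fin.last m).castSucc c (t : 𝓞 K)) p) ?_ ?_ Z hZ
  · rintro t p ⟨hp, v, hv1, hv2, -⟩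
    refine ⟨hp, p_dvd_Nm hp hv1 ?_⟩
    rwa [hlast] at hv2
  · intro p hp
    obtain ⟨W, hW1, hW2⟩ := cls_union (K := K) hp 1
      (fun v t => tr c (Fin.last m) + (t : 𝓞 K) ∈ v.asIdeal) (by
      intro v hv
      by_cases h1 : ∃ t₀ : ℤ, tr c (Fin.last m) + (t₀ : 𝓞 K) ∈ v.asIdeal
      · obtain ⟨t₀, ht₀⟩ := h1
        refine ⟨{t₀}, by simp, fun t ht => ⟨t₀, by simp, ?_⟩⟩
        rw [← int_mem hp hv]
        have h2 := v.asIdeal.sub_mem ht ht₀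
        have h3 : tr c (Fin.last m) + (t : 𝓞 K) - (tr c (Fin.last m) + (t₀ : 𝓞 K)) =
            ((t - t₀ : ℤ) : 𝓞 K) := by
          push_cast
          ring
        rwa [h3] at h2
      · exact ⟨∅, by simp, fun t ht => absurd ⟨t, ht⟩ h1⟩)
    refine ⟨W, hW1, ?_⟩
    rintro t ⟨-, v, hv1, -, hv3⟩
    rw [htr] at hv3
    exact hW2 v hv1 t hv3

theorem bad1_count (K : Type) [Field K] [NumberField K] (m : ℕ) (hm : 2 ≤ m) (C₀ : ℝ)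
    (hC₀ : 1 ≤ C₀) (ε : ℝ) (hε : 0 < ε) (hε1 : ε ≤ 1) : ∃ C : ℝ, 0 < C ∧ ∀ H : ℕ, 1 ≤ H →
    ∀ c : Fin (m + 1 + 1) → 𝓞 K, Sz (C₀ * H) c → c (Fin.last (m + 1)) ≠ 0 → Ee c ≠ 0 →
      ∀ Z : Finset ℤ, (∀ t ∈ Z, t ∈ Icc (-(H : ℤ)) H ∧ Bad1 ε H (sh c (t : 𝓞 K))) →
        (Z.card : ℝ) ≤ C * (H : ℝ) ^ (1 - ε / 2) := by
  classical
  obtain ⟨C₁, h₁, h1⟩ := rs_count K m (by omega) C₀ hC₀ ε hε hε1
  obtain ⟨C₂, h₂, h2⟩ := pa_count K m (by omega) C₀ hC₀ ε hε hε1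
  obtain ⟨C₃, h₃, h3⟩ := pb_count K m hm C₀ ε hε hε1
  refine ⟨C₁ + C₂ + C₃, by positivity, fun H hH c hc hcl hE Z hZ => ?_⟩
  set Z₁ := Z.filter fun t : ℤ => Rs (sh c (t : 𝓞 K)) ((H : ℝ) ^ (1 - ε)) with hZ₁
  set Z₂ := Z.filter fun t : ℤ => Big (Pa (sh c (t : 𝓞 K))) ((H : ℝ) ^ ε) with hZ₂
  set Z₃ := Z.filter fun t : ℤ => Big (Pb (sh c (t : 𝓞 K))) ((H : ℝ) ^ ε) with hZ₃
  have e1 := h1 H hH c hc hcl Z₁ fun t ht =>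
    ⟨(hZ t (mem_filter.1 ht).1).1, (mem_filter.1 ht).2⟩
  have e2 := h2 H hH c hc hE Z₂ fun t ht =>
    ⟨(hZ t (mem_filter.1 ht).1).1, (mem_filter.1 ht).2⟩
  have e3 := h3 H hH c hc hcl Z₃ fun t ht =>
    ⟨(hZ t (mem_filter.1 ht).1).1, (mem_filter.1 ht).2⟩
  have hsub : Z ⊆ Z₁ ∪ (Z₂ ∪ Z₃) := by
    intro t ht
    rw [mem_union, mem_union, hZ₁, hZ₂, hZ₃, mem_filter, mem_filter, mem_filter]
    rcases (hZ t ht).2 with h | h | h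
    · exact Or.inl ⟨ht, h⟩
    · exact Or.inr (Or.inl ⟨ht, h⟩)
    · exact Or.inr (Or.inr ⟨ht, h⟩)
  have e4 : (Z.card : ℝ) ≤ Z₁.card + (Z₂.card + Z₃.card) := by
    have := (card_le_card hsub).trans ((card_union_le _ _).trans
      (Nat.add_le_add_left (card_union_le _ _) _))
    exact_mod_cast this
  have e5 : (C₁ + C₂ + C₃) * (H : ℝ) ^ (1 - ε / 2) = C₁ * (H : ℝ) ^ (1 - ε / 2) +
    (C₂ * (H : ℝ) ^ (1 - ε / 2) + C₃ * (H : ℝ) ^ (1 - ε / 2)) := by ring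
  rw [e5]
  linarith

end Pool.Agent.K4H5.HF
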