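import Pool.Agent.K4H5.HF.Bad

/-!
Coefficient vectors in a box.
-/

set_option autoImplicit false
set_option linter.unusedSectionVars false

open NumberField IsDedekindDomain Polynomial Finset

namespace Pool.Agent.K4H5.HF

variable {K : Type} [Field K] [NumberField K]

theorem mem_box {H : ℕ} {x : 𝓞 K} :
    x ∈ box K H ↔ ∀ i, |(RingOfIntegers.basis K).repr x i| ≤ H := by
  unfold box
  rw [mem_map]
  constructor
  · rintro ⟨a, ha, rfl⟩ i
    rw [Fintype.mem_piFinset] at ha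
    have h1 := ha i
    rw [mem_Icc] at h1
    have h2 : (RingOfIntegers.basis K).repr
        ((RingOfIntegers.basis K).equivFun.symm.toEquiv.toEmbedding a) i = a i := by
      have h3 := (RingOfIntegers.basis K).equivFun.apply_symm_apply a
      have h4 := congrFun h3 i
      rw [Module.Basis.equivFun_apply] at h4
      exact h4
    rw [h2]
    exact abs_le.2 h1
  · intro h
    refine ⟨(RingOfIntegers.basis K).equivFun x, ?_, ?_⟩
    · rw [Fintype.mem_piFinset]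
      intro i
      rw [mem_Icc, Module.Basis.equivFun_apply]
      exact abs_le.1 (h i)
    · exact (RingOfIntegers.basis K).equivFun.symm_apply_apply x

theorem card_box (K : Type) [Field K] [NumberField K] (H : ℕ) :
    (box K H).card = (2 * H + 1) ^ Module.finrank ℚ K := by
  unfold box
  rw [card_map, Fintype.card_piFinset]
  simp only [Int.card_Icc, prod_const, card_univ]
  rw [← Module.finrank_eq_card_chooseBasisIndex, RingOfIntegers.rank]
  congr 1
  omega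

theorem box_size (K : Type) [Field K] [NumberField K] : ∃ C₀ : ℝ, 1 ≤ C₀ ∧ ∀ H : ℕ,
    ∀ x ∈ box K H, ∀ σ : K →+* ℂ, ‖σ (x : K)‖ ≤ C₀ * H := by
  set b := RingOfIntegers.basis K with hb
  refine ⟨1 + ∑ σ : K →+* ℂ, ∑ i, ‖em σ (b i)‖, ?_, ?_⟩
  · have : 0 ≤ ∑ σ : K →+* ℂ, ∑ i, ‖em σ (b i)‖ := by positivity
    linarith
  · intro H x hx σ
    rw [mem_box] at hx
    have h1 : σ (x : K) = ∑ i, ((b.repr x i : ℤ) : ℂ) * em σ (b i) := by
      have h2 : em σ x = em σ (∑ i, b.repr x i • b i) := by rw [b.sum_repr]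
      have h3 : σ (x : K) = em σ x := rfl
      rw [h3, h2, map_sum]
      refine sum_congr rfl fun i _ => ?_
      rw [zsmul_eq_mul, map_mul, map_intCast]
    rw [h1]
    refine (norm_sum_le _ _).trans ?_
    have h4 : ∑ i, ‖((b.repr x i : ℤ) : ℂ) * em σ (b i)‖ ≤ ∑ i, ‖em σ (b i)‖ * H := by
      refine sum_le_sum fun i _ => ?_
      rw [norm_mul, Complex.norm_intCast, mul_comm]
      refine mul_le_mul_of_nonneg_left ?_ (norm_nonneg _)
      exact_mod_cast hx i
    refine h4.trans ?_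
    rw [← sum_mul]
    refine mul_le_mul_of_nonneg_right ?_ (Nat.cast_nonneg _)
    have h5 : ∑ i, ‖em σ (b i)‖ ≤ ∑ σ : K →+* ℂ, ∑ i, ‖em σ (b i)‖ :=
      single_le_sum (f := fun σ : K →+* ℂ => ∑ i, ‖em σ (b i)‖) (fun _ _ => by positivity)
        (mem_univ σ)
    linarith

theorem box_shift (K : Type) [Field K] [NumberField K] : ∃ A : ℕ, 1 ≤ A ∧ ∀ H : ℕ,
    ∀ x ∈ box K H, ∀ t ∈ Icc (-(H : ℤ)) H, x - (t : 𝓞 K) ∈ box K (A * H) := by
  set b := RingOfIntegers.basis K with hb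
  refine ⟨1 + ∑ i, (b.repr 1 i).natAbs, by omega, ?_⟩
  intro H x hx t ht
  rw [mem_box] at hx ⊢
  intro i
  have h1 : (t : 𝓞 K) = t • (1 : 𝓞 K) := by rw [zsmul_eq_mul, mul_one]
  have h2 : (RingOfIntegers.basis K).repr (x - (t : 𝓞 K)) i =
      (RingOfIntegers.basis K).repr x i - t * (RingOfIntegers.basis K).repr 1 i := by
    rw [map_sub, h1, map_smul]
    simp
  rw [h2]
  rw [mem_Icc] at ht
  have h3 : |t| ≤ H := abs_le.2 ht
  have h4 : |(RingOfIntegers.basis K).repr (1 : 𝓞 K) i| ≤ ∑ i, ((b.repr 1 i).natAbs : ℤ) := by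
    have h5 : ((b.repr 1 i).natAbs : ℤ) ≤ ∑ i, ((b.repr 1 i).natAbs : ℤ) :=
      single_le_sum (f := fun i => ((b.repr 1 i).natAbs : ℤ)) (fun _ _ => by positivity)
        (mem_univ i)
    rw [Int.natCast_natAbs] at h5
    exact h5
  refine (abs_sub _ _).trans ?_
  rw [abs_mul]
  have h6 := mul_le_mul h3 h4 (abs_nonneg _) (Nat.cast_nonneg H)
  have h7 := hx i
  have h8 : (((1 + ∑ i, (b.repr 1 i).natAbs) * H : ℕ) : ℤ) =
      H + H * ∑ i, ((b.repr 1 i).natAbs : ℤ) := by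
    rw [Nat.cast_mul, Nat.cast_add, Nat.cast_sum]
    push_cast
    ring
  rw [h8]
  exact add_le_add h7 h6

/-- averaging over the translates in one coordinate -/
theorem avg {N : ℕ} (j : Fin (N + 1)) (A : ℕ) (hA : ∀ H : ℕ, ∀ x ∈ box K H,
    ∀ t ∈ Icc (-(H : ℤ)) H, x - (t : 𝓞 K) ∈ box K (A * H)) (hA1 : 1 ≤ A)
    (bad Exc : (Fin (N + 1) → 𝓞 K) → Prop) (H : ℕ) (X Y : ℝ) (hX : 0 ≤ X)
    (B : Finset (Fin (N + 1) → 𝓞 K)) (hB : ∀ c ∈ B, (∀ i, c i ∈ box K H) ∧ bad c)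
    (E : Finset (Fin (N + 1) → 𝓞 K)) (hE : ∀ c, (∀ i, c i ∈ box K (A * H)) → Exc c → c ∈ E)
    (hEc : (E.card : ℝ) ≤ Y)
    (h : ∀ c, (∀ i, c i ∈ box K (A * H)) → ¬ Exc c → ∀ Z : Finset ℤ,
      (∀ t ∈ Z, t ∈ Icc (-(H : ℤ)) H ∧ bad (shj j c (t : 𝓞 K))) → (Z.card : ℝ) ≤ X) :
    (B.card : ℝ) * (2 * H + 1) ≤
      (((2 * (A * H) + 1 : ℕ) : ℝ) ^ Module.finrank ℚ K) ^ (N + 1) * X + Y * (2 * H + 1) := by
  classical
  set T : Finset ℤ := Icc (-(H : ℤ)) H with hT
  have hTc : T.card = 2 * H + 1 := by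
    rw [hT, Int.card_Icc]
    omega
  set G : Finset (Fin (N + 1) → 𝓞 K) := Fintype.piFinset fun _ => box K (A * H) with hG
  have hGc : G.card = ((2 * (A * H) + 1) ^ Module.finrank ℚ K) ^ (N + 1) := by
    rw [hG, Fintype.card_piFinset]
    simp only [card_box, prod_const, card_univ, Fintype.card_fin]
  set Q := G.sigma (fun c => T.filter fun t : ℤ => bad (shj j c (t : 𝓞 K))) with hQ
  have hmono : box K H ⊆ box K (A * H) := by
    intro x hx
    rw [mem_box] at hx ⊢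
    intro i
    refine (hx i).trans ?_
    exact_mod_cast Nat.le_mul_of_pos_left H (by omega)
  have h1 : (B ×ˢ T).card ≤ Q.card := by
    refine card_le_card_of_injOn (fun x : (Fin (N + 1) → 𝓞 K) × ℤ =>
      (⟨shj j x.1 (-(x.2 : 𝓞 K)), x.2⟩ : Σ _ : Fin (N + 1) → 𝓞 K, ℤ)) ?_ ?_
    · rintro ⟨c, t⟩ hct
      rw [mem_coe, mem_product] at hct
      obtain ⟨h2, h3⟩ := hct
      obtain ⟨h4, h5⟩ := hB c h2
      have h6 : shj j (shj j c (-(t : 𝓞 K))) (t : 𝓞 K) = c := by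
        funext i
        unfold shj
        split_ifs <;> simp
      rw [mem_coe, hQ, mem_sigma]
      refine ⟨?_, ?_⟩
      · rw [hG, Fintype.mem_piFinset]
        intro i
        show shj j c (-(t : 𝓞 K)) i ∈ _
        unfold shj
        split_ifs
        · rw [← sub_eq_add_neg]
          exact hA H _ (h4 i) t h3
        · rw [add_zero]
          exact hmono (h4 i)
      · rw [mem_filter]
        refine ⟨h3, ?_⟩
        show bad (shj j (shj j c (-(t : 𝓞 K))) (t : 𝓞 K))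
        rw [h6]
        exact h5
    · rintro ⟨c, t⟩ _ ⟨c', t'⟩ _ h2
      simp only [Sigma.mk.injEq, heq_eq_eq] at h2
      obtain ⟨h3, rfl⟩ := h2
      refine Prod.ext ?_ rfl
      funext i
      have h4 := congrFun h3 i
      unfold shj at h4
      exact add_right_cancel h4
  rw [card_product, hTc, hQ, card_sigma] at h1
  have h2 : ∑ c ∈ G, ((T.filter fun t : ℤ => bad (shj j c (t : 𝓞 K))).card : ℝ) ≤
      ∑ c ∈ G, (X + if c ∈ E then (2 * H + 1 : ℝ) else 0) := by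
    refine sum_le_sum fun c hc => ?_
    rw [hG, Fintype.mem_piFinset] at hc
    by_cases hexc : Exc c
    · rw [if_pos (hE c hc hexc)]
      have h3 : ((T.filter fun t : ℤ => bad (shj j c (t : 𝓞 K))).card : ℝ) ≤ 2 * H + 1 := by
        have := card_filter_le T fun t : ℤ => bad (shj j c (t : 𝓞 K))
        rw [hTc] at this
        exact_mod_cast this
      linarith
    · have h3 := h c hc hexc (T.filter fun t : ℤ => bad (shj j c (t : 𝓞 K)))
        fun t ht => ⟨(mem_filter.1 ht).1, (mem_filter.1 ht).2⟩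
      split_ifs
      · have : (0 : ℝ) ≤ 2 * H + 1 := by positivity
        linarith
      · linarith
  have h3 : ∑ c ∈ G, (X + if c ∈ E then (2 * H + 1 : ℝ) else 0) ≤
      G.card * X + Y * (2 * H + 1) := by
    rw [sum_add_distrib, sum_const, nsmul_eq_mul, ← sum_filter, sum_const, nsmul_eq_mul]
    have h4 : ((G.filter fun c => c ∈ E).card : ℝ) ≤ Y := by
      refine le_trans ?_ hEc
      exact_mod_cast card_le_card fun c hc => (mem_filter.1 hc).2
    have h5 : (0 : ℝ) ≤ 2 * H + 1 := by positivity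
    nlinarith
  have h4 : (B.card : ℝ) * (2 * H + 1) ≤
      ∑ c ∈ G, ((T.filter fun t : ℤ => bad (shj j c (t : 𝓞 K))).card : ℝ) := by
    exact_mod_cast h1
  refine h4.trans (h2.trans (h3.trans ?_))
  rw [hGc]
  push_cast
  exact le_refl _

/-- few vectors have last coordinate zero -/
theorem card_last {N : ℕ} (S : Finset (𝓞 K)) (B : Finset (Fin (N + 1) → 𝓞 K))
    (hB : ∀ c ∈ B, (∀ i, c i ∈ S) ∧ c (Fin.last N) = 0) : B.card ≤ S.card ^ N := by
  classical
  have h1 : B ⊆ Fintype.piFinset fun i : Fin (N + 1) => if i = Fin.last N then {0} else S := by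
    intro c hc
    obtain ⟨h2, h3⟩ := hB c hc
    rw [Fintype.mem_piFinset]
    intro i
    split_ifs with hi
    · rw [hi, mem_singleton]
      exact h3
    · exact h2 i
  refine (card_le_card h1).trans (le_of_eq ?_)
  rw [Fintype.card_piFinset, Fin.prod_univ_castSucc, if_pos rfl, card_singleton, mul_one]
  have h2 : ∀ i : Fin N, (if i.castSucc = Fin.last N then ({0} : Finset (𝓞 K)) else S) = S :=
    fun i => if_neg (Fin.castSucc_lt_last i).ne
  simp only [h2, prod_const, card_univ, Fintype.card_fin]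

/-- few coefficient vectors are bad -/
theorem box_count (K : Type) [Field K] [NumberField K] (m : ℕ) (hm : 2 ≤ m) (ε : ℝ)
    (hε : 0 < ε) (hε1 : ε ≤ 1) : ∃ C : ℝ, 0 < C ∧ ∀ H : ℕ, 1 ≤ H →
    ∀ B : Finset (Fin (m + 1 + 1) → 𝓞 K),
      (∀ c ∈ B, (∀ i, c i ∈ box K H) ∧ (Bad1 ε H c ∨ Bad2 ε H c ∨ c (Fin.last (m + 1)) = 0)) →
        (B.card : ℝ) ≤ C * (H : ℝ) ^ (((m + 2) * Module.finrank ℚ K : ℕ) - ε / 2 : ℝ) := by
  classical
  obtain ⟨C₀, hC₀, hsize⟩ := box_size K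
  obtain ⟨A, hA1, hA⟩ := box_shift K
  have hAR : (1 : ℝ) ≤ A := by exact_mod_cast hA1
  have hCA : 1 ≤ C₀ * A := by nlinarith
  obtain ⟨C₁, hC₁, h1⟩ := bad1_count K m hm (C₀ * A) hCA ε hε hε1
  obtain ⟨C₂, hC₂, h2⟩ := pc_count K m (C₀ * A) ε hε hε1
  obtain ⟨τ, hτ⟩ := Ee_zeros (N := m + 1) (by omega) (𝓞 K)
  set d := Module.finrank ℚ K with hd
  have hd0 : 1 ≤ d := Module.finrank_pos
  set κ : ℝ := (3 * A : ℝ) ^ (d * (m + 2)) with hκ
  have hκ0 : 0 < κ := by positivity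
  refine ⟨(κ * C₁ + (τ + 1) * κ) + (κ * C₂ + (τ + 1) * κ) + κ, by positivity, ?_⟩
  intro H hH B hB
  have hHR : (1 : ℝ) ≤ H := by exact_mod_cast hH
  have hH0 : (0 : ℝ) < H := by linarith
  have hSz : ∀ c : Fin (m + 1 + 1) → 𝓞 K, (∀ i, c i ∈ box K (A * H)) → Sz (C₀ * A * H) c := by
    intro c hc i σ
    have := hsize (A * H) (c i) (hc i) σ
    push_cast at this
    rw [mul_assoc]
    exact this
  set S := box K (A * H) with hS
  have hSne : S.Nonempty := ⟨0, by rw [hS, mem_box]; intro i; simp; positivity⟩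
  have hScard : (S.card : ℝ) = ((2 * (A * H) + 1 : ℕ) : ℝ) ^ d := by
    rw [hS, card_box]
    push_cast
    rfl
  have h3A : ((2 * (A * H) + 1 : ℕ) : ℝ) ≤ 3 * A * H := by
    push_cast
    nlinarith
  -- powers
  have hbig : (((2 * (A * H) + 1 : ℕ) : ℝ) ^ d) ^ (m + 1 + 1) ≤ κ * (H : ℝ) ^ (d * (m + 2)) := by
    rw [← pow_mul, hκ, ← mul_pow]
    exact pow_le_pow_left₀ (Nat.cast_nonneg _) h3A _
  have hsmall : (((2 * (A * H) + 1 : ℕ) : ℝ) ^ d) ^ (m + 1) ≤ κ * (H : ℝ) ^ (d * (m + 1)) := by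
    rw [← pow_mul]
    refine (pow_le_pow_left₀ (Nat.cast_nonneg _) h3A _).trans ?_
    rw [mul_pow, hκ]
    refine mul_le_mul_of_nonneg_right (pow_le_pow_right₀ (by linarith) ?_) (by positivity)
    exact Nat.mul_le_mul_left _ (by omega)
  set P : ℝ := (H : ℝ) ^ (((m + 2) * d : ℕ) - ε / 2 : ℝ) with hP
  have hP0 : 0 < P := by positivity
  have hPs : (H : ℝ) ^ (d * (m + 1)) ≤ P := by
    rw [hP, ← Real.rpow_natCast]
    refine Real.rpow_le_rpow_of_exponent_le hHR ?_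
    push_cast
    have hdR : (1 : ℝ) ≤ d := by exact_mod_cast hd0
    nlinarith
  have hPb : (H : ℝ) ^ (d * (m + 2)) * (H : ℝ) ^ (1 - ε / 2) = P * H := by
    rw [hP, ← Real.rpow_natCast, ← Real.rpow_add hH0]
    conv_rhs => rw [← Real.rpow_one (H : ℝ), ← Real.rpow_mul hH0.le, one_mul, ← Real.rpow_add hH0]
    congr 1
    push_cast
    ring
  -- exceptional vectors
  set E : Finset (Fin (m + 1 + 1) → 𝓞 K) := (Fintype.piFinset fun _ => S).filter fun c =>
    Ee c = 0 ∨ c (Fin.last (m + 1)) = 0 with hE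
  have hEc : (E.card : ℝ) ≤ (τ + 1) * (κ * (H : ℝ) ^ (d * (m + 1))) := by
    have e1 : E ⊆ ((Fintype.piFinset fun _ => S).filter fun c => Ee c = 0) ∪
        ((Fintype.piFinset fun _ => S).filter fun c : Fin (m + 1 + 1) → 𝓞 K =>
          c (Fin.last (m + 1)) = 0) := by
      intro c hc
      rw [hE, mem_filter] at hc
      rw [mem_union, mem_filter, mem_filter]
      rcases hc.2 with h | h
      · exact Or.inl ⟨hc.1, h⟩
      · exact Or.inr ⟨hc.1, h⟩
    have e2 := (card_le_card e1).trans (card_union_le _ _)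
    have e3 := hτ S hSne
    have e4 := card_last S ((Fintype.piFinset fun _ => S).filter fun c : Fin (m + 1 + 1) → 𝓞 K =>
          c (Fin.last (m + 1)) = 0) fun c hc => by
      rw [mem_filter, Fintype.mem_piFinset] at hc
      exact hc
    have e5 : E.card ≤ (τ + 1) * S.card ^ (m + 1) := by
      rw [add_mul, one_mul]
      omega
    have e6 : (E.card : ℝ) ≤ (τ + 1) * (S.card : ℝ) ^ (m + 1) := by exact_mod_cast e5
    refine e6.trans (mul_le_mul_of_nonneg_left ?_ (by positivity))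
    rw [hScard]
    exact hsmall
  have hEx : ∀ c : Fin (m + 1 + 1) → 𝓞 K, (∀ i, c i ∈ box K (A * H)) →
      (Ee c = 0 ∨ c (Fin.last (m + 1)) = 0) → c ∈ E := by
    intro c hc h
    rw [hE, mem_filter, Fintype.mem_piFinset]
    exact ⟨hc, h⟩
  have fin : ∀ (C : ℝ) (W : Finset (Fin (m + 1 + 1) → 𝓞 K)), 0 < C →
      (W.card : ℝ) * (2 * H + 1) ≤ (((2 * (A * H) + 1 : ℕ) : ℝ) ^ d) ^ (m + 1 + 1) *
        (C * (H : ℝ) ^ (1 - ε / 2)) + ((τ + 1) * (κ * (H : ℝ) ^ (d * (m + 1)))) * (2 * H + 1) →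
      (W.card : ℝ) ≤ (κ * C + (τ + 1) * κ) * P := by
    intro C W hC hW
    have f1 : (((2 * (A * H) + 1 : ℕ) : ℝ) ^ d) ^ (m + 1 + 1) * (C * (H : ℝ) ^ (1 - ε / 2)) ≤
        κ * C * P * (2 * H + 1) := by
      calc (((2 * (A * H) + 1 : ℕ) : ℝ) ^ d) ^ (m + 1 + 1) * (C * (H : ℝ) ^ (1 - ε / 2))
          ≤ κ * (H : ℝ) ^ (d * (m + 2)) * (C * (H : ℝ) ^ (1 - ε / 2)) :=
            mul_le_mul_of_nonneg_right hbig (by positivity)
        _ = κ * C * ((H : ℝ) ^ (d * (m + 2)) * (H : ℝ) ^ (1 - ε / 2)) := by ring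
        _ = κ * C * P * H := by rw [hPb]; ring
        _ ≤ κ * C * P * (2 * H + 1) :=
            mul_le_mul_of_nonneg_left (by linarith) (by positivity)
    have f2 : ((τ + 1) * (κ * (H : ℝ) ^ (d * (m + 1)))) * (2 * (H : ℝ) + 1) ≤
        (τ + 1) * κ * P * (2 * H + 1) := by
      refine mul_le_mul_of_nonneg_right ?_ (by positivity)
      rw [mul_assoc]
      exact mul_le_mul_of_nonneg_left (mul_le_mul_of_nonneg_left hPs hκ0.le) (by positivity)
    have f3 : (W.card : ℝ) * (2 * H + 1) ≤ (κ * C + (τ + 1) * κ) * P * (2 * H + 1) := by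
      have : (κ * C + (τ + 1) * κ) * P * (2 * (H : ℝ) + 1) =
        κ * C * P * (2 * H + 1) + (τ + 1) * κ * P * (2 * H + 1) := by ring
      rw [this]
      linarith
    exact le_of_mul_le_mul_right f3 (by positivity)
  set B₁ := B.filter fun c => Bad1 ε H c with hB₁
  set B₂ := B.filter fun c => Bad2 ε H c with hB₂
  set B₃ := B.filter fun c => c (Fin.last (m + 1)) = 0 with hB₃
  have g1 : (B₁.card : ℝ) ≤ (κ * C₁ + (τ + 1) * κ) * P := by
    refine fin C₁ B₁ hC₁ (avg 0 A hA hA1 (Bad1 ε H)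
      (fun c => Ee c = 0 ∨ c (Fin.last (m + 1)) = 0) H _ _ (by positivity) B₁ ?_ E hEx hEc ?_)
    · intro c hc
      rw [hB₁, mem_filter] at hc
      exact ⟨(hB c hc.1).1, hc.2⟩
    · intro c hc hexc Z hZ
      push Not at hexc
      exact h1 H hH c (hSz c hc) hexc.2 hexc.1 Z hZ
  have g2 : (B₂.card : ℝ) ≤ (κ * C₂ + (τ + 1) * κ) * P := by
    refine fin C₂ B₂ hC₂ (avg (Fin.last m).castSucc A hA hA1 (Bad2 ε H)
      (fun c => Ee c = 0 ∨ c (Fin.last (m + 1)) = 0) H _ _ (by positivity) B₂ ?_ E hEx hEc ?_)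
    · intro c hc
      rw [hB₂, mem_filter] at hc
      exact ⟨(hB c hc.1).1, hc.2⟩
    · intro c hc hexc Z hZ
      push Not at hexc
      exact h2 H hH c (hSz c hc) hexc.2 Z hZ
  have g3 : (B₃.card : ℝ) ≤ κ * P := by
    have e4 := card_last (box K H) B₃ fun c hc => by
      rw [hB₃, mem_filter] at hc
      exact ⟨(hB c hc.1).1, hc.2⟩
    rw [card_box] at e4
    have e5 : (B₃.card : ℝ) ≤ ((2 * H + 1 : ℝ) ^ d) ^ (m + 1) := by exact_mod_cast e4
    refine e5.trans ?_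
    have e6 : (2 * H + 1 : ℝ) ≤ ((2 * (A * H) + 1 : ℕ) : ℝ) := by
      push_cast
      nlinarith
    refine (pow_le_pow_left₀ (by positivity) (pow_le_pow_left₀ (by positivity) e6 _) _).trans ?_
    exact hsmall.trans (mul_le_mul_of_nonneg_left hPs hκ0.le)
  have hsub : B ⊆ B₁ ∪ (B₂ ∪ B₃) := by
    intro c hc
    rw [mem_union, mem_union, hB₁, hB₂, hB₃, mem_filter, mem_filter, mem_filter]
    rcases (hB c hc).2 with h | h | h
    · exact Or.inl ⟨hc, h⟩
    · exact Or.inr (Or.inl ⟨hc, h⟩)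
    · exact Or.inr (Or.inr ⟨hc, h⟩)
  have g4 : (B.card : ℝ) ≤ B₁.card + (B₂.card + B₃.card) := by
    have := (card_le_card hsub).trans ((card_union_le _ _).trans
      (Nat.add_le_add_left (card_union_le _ _) _))
    exact_mod_cast this
  rw [add_mul, add_mul]
  linarith

end Pool.Agent.K4H5.HF
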