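import Mathlib.FieldTheory.IsAlgClosed.AlgebraicClosure
import Mathlib.RingTheory.LocalRing.ResidueField.Ideal
import Mathlib.RingTheory.DedekindDomain.AdicValuation
import Mathlib.NumberTheory.NumberField.CanonicalEmbedding.Basic
import Mathlib.RingTheory.Ideal.Norm.AbsNorm
import Mathlib.LinearAlgebra.Vandermonde
import Mathlib.MeasureTheory.Measure.Lebesgue.Complex
import Mathlib.Analysis.SpecialFunctions.Log.Basic

/-!
Definitions: the height and the conductor of the Jacobian of `y² = e F(x)`.
-/

set_option autoImplicit false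

open NumberField IsDedekindDomain Polynomial MeasureTheory
open scoped ENNReal

namespace Pool.Agent.K4H5.HF

/-- the number of different roots -/
noncomputable def nr {L : Type} [Field L] (f : L[X]) : ℕ := by
  classical
  exact f.roots.toFinset.card

/-- The number of zeros, in the projective line over an algebraic closure of `k`, of the binary
form of degree `N` whose dehomogenisation is `F`: the different zeros of `F`, and the point at
infinity if the degree of `F` is smaller than `N`. -/
noncomputable def zeros {k : Type} [Field k] (N : ℕ) (F : k[X]) : ℕ :=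
  nr (F.map (algebraMap k (AlgebraicClosure k))) + (if F.natDegree < N then 1 else 0)

/-- The integral over `ℂ ^ g` of `∏_{j<k} |x_j - x_k|² / ∏_k |F (x_k)|`. Up to a constant which
depends on `g` only this is the square of the `L²` norm of the top degree form
`∧_{i<g} x^i dx / y` on the Jacobian of the curve `y² = F(x)`. -/
noncomputable def vol (g : ℕ) (F : ℂ[X]) : ℝ :=
  (∫⁻ x : Fin g → ℂ, ‖(Matrix.vandermonde x).det‖ₑ ^ 2 / ∏ k, ‖F.eval (x k)‖ₑ).toReal

variable {K : Type} [Field K] [NumberField K]

/-- The integers of `K` whose coordinates in the fixed integral basis `RingOfIntegers.basis K` of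
Mathlib have absolute value at most `H`. -/
noncomputable def box (K : Type) [Field K] [NumberField K] (H : ℕ) : Finset (𝓞 K) :=
  (Fintype.piFinset fun _ : Module.Free.ChooseBasisIndex ℤ (𝓞 K) =>
    Finset.Icc (-(H : ℤ)) H).map (RingOfIntegers.basis K).equivFun.symm.toEquiv.toEmbedding

/-- an embedding on the integers -/
noncomputable def em (σ : K →+* ℂ) : 𝓞 K →+* ℂ := σ.comp (algebraMap (𝓞 K) K)

/-- the number of elements of the residue field -/
noncomputable def nv (v : HeightOneSpectrum (𝓞 K)) : ℕ := Ideal.absNorm v.asIdeal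

/-- the number of zeros modulo `v` of the form of degree `M` with dehomogenisation `F` -/
noncomputable def zv (M : ℕ) (v : HeightOneSpectrum (𝓞 K)) (F : (𝓞 K)[X]) : ℕ :=
  zeros M (F.map (algebraMap (𝓞 K) v.asIdeal.ResidueField))

/-- the places where the order of `e` is odd -/
def oddv (e : K) : Set (HeightOneSpectrum (𝓞 K)) := {v | ¬ IsSquare (v.valuation K e)}

open Classical in
/-- The exponent of the conductor of the Jacobian of `y² = e F(x)` at the place `v`, if `v` does
not divide `2` and `F` has at least `2 g + 1` different zeros modulo `v` (as a form of degree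
`2 g + 2`); and `0` for the other places. -/
noncomputable def expo (g : ℕ) (F : (𝓞 K)[X]) (e : K) (v : HeightOneSpectrum (𝓞 K)) : ℕ :=
  if (2 : 𝓞 K) ∈ v.asIdeal ∨ zv (2 * g + 2) v F < 2 * g + 1 then 0
  else if v ∈ oddv e then 2 * g else 2 * g + 2 - zv (2 * g + 2) v F

/-- a divisor of the conductor of the Jacobian of `y² = e F(x)` -/
noncomputable def cond (g : ℕ) (F : (𝓞 K)[X]) (e : K) : ℕ :=
  ∏ᶠ v : HeightOneSpectrum (𝓞 K), nv v ^ expo g F e v

/-- an upper bound for the height of the Jacobian of `y² = e F(x)` -/
noncomputable def height (g : ℕ) (F : (𝓞 K)[X]) (e : K) : ℝ :=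
  (Module.finrank ℚ K : ℝ)⁻¹ *
    ((∑ σ : K →+* ℂ, -(1 / 2) * Real.log (vol g (F.map (em σ)))) +
      g / 2 * ∑ᶠ v ∈ oddv e, Real.log (nv v))

/-- The curve `y² = F(x)` has genus `g`, and the inequality of Frey with the slope `κ` and the
constant `C` holds for the Jacobians of all its quadratic twists `y² = e F(x)`. -/
def Frey (g : ℕ) (κ C : ℝ) (F : (𝓞 K)[X]) : Prop :=
  zeros (2 * g + 2) (F.map (algebraMap (𝓞 K) K)) = 2 * g + 2 ∧
    ∀ e : K, e ≠ 0 → height g F e ≤ κ * Real.log (cond g F e) + C

end Pool.Agent.K4H5.HF
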