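import Pool.Agent.K4H5.HF.Box
import Pool.Agent.K4H5.HF.Arch
import Mathlib.RingTheory.DedekindDomain.FiniteAdeleRing

/-!
The height and the conductor of the Jacobian of `y² = e f(x)`.
-/

set_option autoImplicit false
set_option linter.unusedSectionVars false

open NumberField IsDedekindDomain Polynomial Finset

namespace Pool.Agent.K4H5.HF

variable {K : Type} [Field K] [NumberField K]

theorem oddv_finite {e : K} (he : e ≠ 0) : (oddv e).Finite := by
  have h1 := HeightOneSpectrum.Support.finite (𝓞 K) e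
  have h2 := HeightOneSpectrum.Support.finite (𝓞 K) e⁻¹
  refine (h1.union h2).subset fun v hv => ?_
  by_contra hcon
  rw [Set.mem_union, not_or] at hcon
  have h3 : v.valuation K e ≤ 1 := not_lt.1 hcon.1
  have h4 : v.valuation K e⁻¹ ≤ 1 := not_lt.1 hcon.2
  rw [map_inv₀] at h4
  have h0 : 0 < v.valuation K e := zero_lt_iff.2 ((Valuation.ne_zero_iff _).2 he)
  have h5 : v.valuation K e = 1 := le_antisymm h3 ((inv_le_one₀ h0).1 h4)
  exact hv (by rw [h5]; exact ⟨1, by simp⟩)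

theorem log_nv_pos (v : HeightOneSpectrum (𝓞 K)) : 0 < Real.log (nv v) :=
  Real.log_pos (by exact_mod_cast two_le_nv v)

theorem sum_log_const {x : 𝓞 K} (hx : x ≠ 0) (B : Finset (HeightOneSpectrum (𝓞 K)))
    (h : ∀ v ∈ B, x ∈ v.asIdeal) : ∑ v ∈ B, Real.log (nv v) ≤ Real.log (Nm x) := by
  have h1 := Nat.le_of_dvd (Nat.pos_of_ne_zero (Nm_ne hx)) (prod_nv_dvd B x h)
  rw [← Real.log_prod fun v _ => by exact_mod_cast nv_ne v]
  have h2 : (∏ v ∈ B, (nv v : ℝ)) ≤ Nm x := by exact_mod_cast h1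
  exact Real.log_le_log (prod_pos fun v _ => by
    exact_mod_cast Nat.pos_of_ne_zero (nv_ne v)) h2

theorem sum_log_le (P : ℕ → Prop) (hP : ∀ p, P p → p.Prime) {Y : ℝ} (hY : ¬ Big P Y)
    (B : Finset (HeightOneSpectrum (𝓞 K)))
    (h : ∀ v ∈ B, ∃ p, P p ∧ (p : 𝓞 K) ∈ v.asIdeal) :
    ∑ v ∈ B, Real.log (nv v) ≤ Module.finrank ℚ K * Real.log Y := by
  classical
  choose! p hp1 hp2 using h
  set S := B.image p with hS
  have hSP : ∀ q ∈ S, P q := by
    intro q hq
    rw [hS, mem_image] at hq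
    obtain ⟨v, hv, rfl⟩ := hq
    exact hp1 v hv
  have h1 : ((∏ q ∈ S, q : ℕ) : ℝ) ≤ Y := by
    by_contra hcon
    exact hY ⟨S, hSP, not_le.1 hcon⟩
  have h2 : 1 ≤ ∏ q ∈ S, q := prod_pos fun q hq => (hP q (hSP q hq)).pos
  have hx : ((∏ q ∈ S, q : ℕ) : 𝓞 K) ≠ 0 := by exact_mod_cast (by omega : ∏ q ∈ S, q ≠ 0)
  refine (sum_log_const hx B fun v hv => ?_).trans ?_
  · have h3 : p v ∣ ∏ q ∈ S, q := dvd_prod_of_mem _ (mem_image_of_mem _ hv)
    obtain ⟨a, ha⟩ := h3
    rw [ha]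
    push_cast
    exact v.asIdeal.mul_mem_right _ (hp2 v hv)
  · rw [Nm_nat, Nat.cast_pow, Real.log_pow]
    refine mul_le_mul_of_nonneg_left ?_ (Nat.cast_nonneg _)
    exact Real.log_le_log (Nat.cast_pos.2 h2) h1

/-- the curve has genus `g` -/
theorem zeros_K {M N : ℕ} (hM : N = M ∨ N + 1 = M) (hN : 2 ≤ N) (c : Fin (N + 1) → 𝓞 K)
    (hc : c (Fin.last N) ≠ 0) (hD : Dd c ≠ 0) :
    zeros M ((fp c).map (algebraMap (𝓞 K) K)) = M := by
  set ψ : 𝓞 K →+* AlgebraicClosure K := (algebraMap K (AlgebraicClosure K)).comp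
    (algebraMap (𝓞 K) K) with hψ
  have hinj : Function.Injective ψ :=
    (algebraMap K (AlgebraicClosure K)).injective.comp (FaithfulSMul.algebraMap_injective (𝓞 K) K)
  have hc' : (N : AlgebraicClosure K) * ψ (c (Fin.last N)) ≠ 0 := by
    refine mul_ne_zero (by exact_mod_cast (by omega : N ≠ 0)) ?_
    rw [Ne, map_eq_zero_iff _ hinj]
    exact hc
  have h1 : ((fp c).map (algebraMap (𝓞 K) K)).map (algebraMap K (AlgebraicClosure K)) =
      fp fun i => ψ (c i) := by
    rw [Polynomial.map_map]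
    exact fp_map ψ c
  have h2 : ((fp c).map (algebraMap (𝓞 K) K)).natDegree = N := by
    rw [← natDegree_map (algebraMap K (AlgebraicClosure K)), h1]
    exact fp_deg _ hc'
  have h3 : nr (fp fun i => ψ (c i)) = N := by
    rw [nr_eq_iff hN _ hc', ← Dd_map, Ne, map_eq_zero_iff _ hinj]
    exact hD
  unfold zeros
  rw [h1, h2, h3]
  split_ifs <;> omega

section det

variable {m : ℕ} (c : Fin (m + 1 + 1) → 𝓞 K) (hcl : c (Fin.last (m + 1)) ≠ 0)

/-- the product of `N`, the leading coefficient and the discriminant -/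
noncomputable def bx {m : ℕ} (c : Fin (m + 1 + 1) → 𝓞 K) : 𝓞 K :=
  ((m + 1 : ℕ) : 𝓞 K) * c (Fin.last (m + 1)) * Dd c

include hcl in
theorem bx_ne (hD : Dd c ≠ 0) : bx c ≠ 0 := by
  unfold bx
  refine mul_ne_zero (mul_ne_zero ?_ hcl) hD
  exact Nat.cast_ne_zero.2 (Nat.succ_ne_zero _)

theorem zv_of_bx {M : ℕ} (hM : m + 1 = M ∨ m + 1 + 1 = M) (hm : 1 ≤ m)
    (v : HeightOneSpectrum (𝓞 K)) (h : bx c ∉ v.asIdeal) : zv M v (fp c) = M := by
  unfold bx at h
  have h1 : ((m + 1 : ℕ) : 𝓞 K) * c (Fin.last (m + 1)) ∉ v.asIdeal := fun h2 =>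
    h (v.asIdeal.mul_mem_right _ h2)
  have h2 : Dd c ∉ v.asIdeal := fun h3 => h (v.asIdeal.mul_mem_left _ h3)
  exact z_full hM (by omega) v c h1 h2

include hcl in
/-- the conductor is large -/
theorem cond_ge {g : ℕ} (hg : 1 ≤ g) (hm : m = 2 * g ∨ m = 2 * g + 1) (hD : Dd c ≠ 0) {e : K} (he : e ≠ 0) (T : Finset (HeightOneSpectrum (𝓞 K)))
    (hT : ∀ v ∈ T, (2 : 𝓞 K) ∉ v.asIdeal ∧ zv (2 * g + 2) v (fp c) = 2 * g + 1)
    (G : Finset (HeightOneSpectrum (𝓞 K)))
    (hG : ∀ v ∈ G, v ∈ oddv e ∧ (2 : 𝓞 K) ∉ v.asIdeal ∧ 2 * g + 1 ≤ zv (2 * g + 2) v (fp c)) :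
    (∑ v ∈ T, Real.log (nv v)) + ∑ v ∈ G, Real.log (nv v) ≤ Real.log (cond g (fp c) e) := by
  classical
  set O := (oddv_finite he).toFinset with hO
  have hOm : ∀ v, v ∈ O ↔ v ∈ oddv e := fun v => by rw [hO, Set.Finite.mem_toFinset]
  set W := (finite_above (bx_ne c hcl hD)).toFinset with hW
  have hWm : ∀ v : HeightOneSpectrum (𝓞 K), v ∉ W → bx c ∉ v.asIdeal := fun v h h2 =>
    h (by rw [hW, Set.Finite.mem_toFinset]; exact h2)
  set F := O ∪ W with hF
  have hsupp : Function.mulSupport (fun v : HeightOneSpectrum (𝓞 K) => nv v ^ expo g (fp c) e v) ⊆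
      F := by
    intro v hv
    by_contra hcon
    rw [hF, mem_coe, mem_union, not_or, hOm] at hcon
    obtain ⟨h1, h2⟩ := hcon
    have h3 := zv_of_bx c (M := 2 * g + 2) (by omega) (by omega) v (hWm v h2)
    apply hv
    show nv v ^ expo g (fp c) e v = 1
    have h4 : expo g (fp c) e v = 0 := by
      unfold expo
      split_ifs
      · rfl
      · rw [h3]
        omega
    rw [h4, pow_zero]
  have hTF : T ⊆ F := by
    intro v hv
    rw [hF, mem_union]
    by_contra hcon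
    rw [not_or] at hcon
    have h3 := zv_of_bx c (M := 2 * g + 2) (by omega) (by omega) v (hWm v hcon.2)
    have h4 := (hT v hv).2
    omega
  have hGF : G ⊆ F := by
    intro v hv
    rw [hF, mem_union, hOm]
    exact Or.inl (hG v hv).1
  unfold cond
  rw [finprod_eq_prod_of_mulSupport_subset _ hsupp]
  push_cast
  rw [Real.log_prod fun v _ => pow_ne_zero _ (by exact_mod_cast nv_ne v)]
  have h1 : ∀ v ∈ F, (if v ∈ T then Real.log (nv v) else 0) +
      (if v ∈ G then Real.log (nv v) else 0) ≤ Real.log ((nv v : ℝ) ^ expo g (fp c) e v) := by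
    intro v _
    rw [Real.log_pow]
    have hl := log_nv_pos v
    have hodd : v ∈ oddv e → ¬ ((2 : 𝓞 K) ∈ v.asIdeal ∨ zv (2 * g + 2) v (fp c) < 2 * g + 1) →
        2 * Real.log (nv v) ≤ (expo g (fp c) e v : ℝ) * Real.log (nv v) := by
      intro h6 h5
      have h7 : expo g (fp c) e v = 2 * g := by
        unfold expo
        rw [if_neg h5, if_pos h6]
      rw [h7]
      have h8 : (2 : ℝ) ≤ ((2 * g : ℕ) : ℝ) := by exact_mod_cast (by omega : 2 ≤ 2 * g)
      exact mul_le_mul_of_nonneg_right h8 hl.le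
    by_cases h2 : v ∈ T
    · obtain ⟨h3, h4⟩ := hT v h2
      have h5 : ¬ ((2 : 𝓞 K) ∈ v.asIdeal ∨ zv (2 * g + 2) v (fp c) < 2 * g + 1) := by
        rintro (h | h)
        · exact h3 h
        · omega
      rw [if_pos h2]
      by_cases h6 : v ∈ oddv e
      · have h7 := hodd h6 h5
        split_ifs
        · linarith
        · linarith
      · rw [if_neg (fun h => h6 (hG v h).1), add_zero]
        have h7 : expo g (fp c) e v = 1 := by
          unfold expo
          rw [if_neg h5, if_neg h6, h4]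
          omega
        rw [h7]
        simp
    · rw [if_neg h2, zero_add]
      split_ifs with h6
      · obtain ⟨h8, h9, h10⟩ := hG v h6
        have h7 := hodd h8 (by
          rintro (h | h)
          · exact h9 h
          · omega)
        linarith
      · positivity
  refine le_trans (le_of_eq ?_) (sum_le_sum h1)
  rw [sum_add_distrib, ← sum_filter, ← sum_filter]
  congr 1
  · congr 1
    ext v
    rw [mem_filter]
    exact ⟨fun h => ⟨hTF h, h⟩, fun h => h.2⟩
  · congr 1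
    ext v
    rw [mem_filter]
    exact ⟨fun h => ⟨hGF h, h⟩, fun h => h.2⟩

end det

end Pool.Agent.K4H5.HF
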