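import Pool.Agent.K4H5.HF.Def
import Mathlib.NumberTheory.NumberField.Norm
import Mathlib.NumberTheory.NumberField.CanonicalEmbedding.Basic
import Mathlib.RingTheory.Ideal.Norm.AbsNorm
import Mathlib.RingTheory.DedekindDomain.Factorization
import Mathlib.NumberTheory.NumberField.Basic

/-!
Norms and primes of a number field.
-/

set_option autoImplicit false
set_option linter.unusedSectionVars false

open NumberField IsDedekindDomain

namespace Pool.Agent.K4H5.HF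

variable {K : Type} [Field K] [NumberField K]

/-- the norm of an integer -/
noncomputable def Nm (x : 𝓞 K) : ℕ := Ideal.absNorm (Ideal.span {x})

theorem Nm_ne {x : 𝓞 K} (hx : x ≠ 0) : Nm x ≠ 0 := by
  unfold Nm
  rw [Ne, Ideal.absNorm_eq_zero_iff, Ideal.span_singleton_eq_bot]
  exact hx

theorem Nm_mul (x y : 𝓞 K) : Nm (x * y) = Nm x * Nm y := by
  unfold Nm
  rw [← Ideal.span_singleton_mul_span_singleton, map_mul]

theorem Nm_nat (m : ℕ) : Nm (m : 𝓞 K) = m ^ Module.finrank ℚ K := by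
  unfold Nm
  rw [Ideal.absNorm_span_natCast, RingOfIntegers.rank]

theorem nv_ne (v : HeightOneSpectrum (𝓞 K)) : nv v ≠ 0 := by
  unfold nv
  rw [Ne, Ideal.absNorm_eq_zero_iff]
  exact v.ne_bot

theorem prod_nv_dvd (B : Finset (HeightOneSpectrum (𝓞 K))) (x : 𝓞 K)
    (h : ∀ v ∈ B, x ∈ v.asIdeal) : ∏ v ∈ B, nv v ∣ Nm x := by
  classical
  have h1 : ∏ v ∈ B, v.asIdeal ∣ Ideal.span {x} := by
    have h2 : ∏ v ∈ B, v.asIdeal = ∏ I ∈ B.image (fun v => v.asIdeal), I := by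
      rw [Finset.prod_image]
      intro v _ w _ hvw
      exact HeightOneSpectrum.ext hvw
    rw [h2]
    refine Finset.prod_primes_dvd _ ?_ ?_
    · intro I hI
      rw [Finset.mem_image] at hI
      obtain ⟨v, _, rfl⟩ := hI
      exact v.prime
    · intro I hI
      rw [Finset.mem_image] at hI
      obtain ⟨v, hv, rfl⟩ := hI
      rw [Ideal.dvd_span_singleton]
      exact h v hv
  have h3 := map_dvd Ideal.absNorm h1
  rw [map_prod] at h3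
  exact h3

theorem dvd_Nm {v : HeightOneSpectrum (𝓞 K)} {x : 𝓞 K} (hx : x ∈ v.asIdeal) : nv v ∣ Nm x := by
  have := prod_nv_dvd {v} x (by simpa using hx)
  simpa using this

theorem int_mem {p : ℕ} (hp : p.Prime) {v : HeightOneSpectrum (𝓞 K)}
    (hpv : (p : 𝓞 K) ∈ v.asIdeal) (m : ℤ) : (m : 𝓞 K) ∈ v.asIdeal ↔ (p : ℤ) ∣ m := by
  constructor
  · intro hm
    by_contra hcon
    have h1 : IsCoprime (p : ℤ) m :=
      (Nat.prime_iff_prime_int.1 hp).coprime_iff_not_dvd.2 hcon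
    obtain ⟨a, b, hab⟩ := h1
    have h2 : ((a : 𝓞 K) * p + b * m) ∈ v.asIdeal :=
      v.asIdeal.add_mem (v.asIdeal.mul_mem_left _ hpv) (v.asIdeal.mul_mem_left _ hm)
    have h3 : ((a : 𝓞 K) * p + b * m) = 1 := by exact_mod_cast congrArg (Int.cast : ℤ → 𝓞 K) hab
    rw [h3] at h2
    exact v.isPrime.ne_top ((Ideal.eq_top_iff_one _).2 h2)
  · rintro ⟨a, rfl⟩
    push_cast
    exact v.asIdeal.mul_mem_right _ hpv

theorem nat_mem {p : ℕ} (hp : p.Prime) {v : HeightOneSpectrum (𝓞 K)}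
    (hpv : (p : 𝓞 K) ∈ v.asIdeal) (m : ℕ) : (m : 𝓞 K) ∈ v.asIdeal ↔ p ∣ m := by
  have := int_mem hp hpv (m : ℤ)
  rw [Int.cast_natCast] at this
  rw [this]
  exact Int.natCast_dvd_natCast

theorem p_dvd_nv {p : ℕ} (hp : p.Prime) {v : HeightOneSpectrum (𝓞 K)}
    (hpv : (p : 𝓞 K) ∈ v.asIdeal) : p ∣ nv v :=
  (nat_mem hp hpv _).1 (Ideal.absNorm_mem _)

theorem p_le_nv {p : ℕ} (hp : p.Prime) {v : HeightOneSpectrum (𝓞 K)}
    (hpv : (p : 𝓞 K) ∈ v.asIdeal) : p ≤ nv v :=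
  Nat.le_of_dvd (Nat.pos_of_ne_zero (nv_ne v)) (p_dvd_nv hp hpv)

theorem p_dvd_Nm {p : ℕ} (hp : p.Prime) {v : HeightOneSpectrum (𝓞 K)}
    (hpv : (p : 𝓞 K) ∈ v.asIdeal) {x : 𝓞 K} (hx : x ∈ v.asIdeal) : p ∣ Nm x :=
  (p_dvd_nv hp hpv).trans (dvd_Nm hx)

theorem p_unique {p q : ℕ} (hp : p.Prime) (hq : q.Prime) {v : HeightOneSpectrum (𝓞 K)}
    (hpv : (p : 𝓞 K) ∈ v.asIdeal) (hqv : (q : 𝓞 K) ∈ v.asIdeal) : p = q :=
  (Nat.prime_dvd_prime_iff_eq hp hq).1 ((nat_mem hp hpv q).1 hqv)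

theorem exists_v {p : ℕ} (hp : p.Prime) {x : 𝓞 K} (hx : x ≠ 0) (h : p ∣ Nm x) :
    ∃ v : HeightOneSpectrum (𝓞 K), (p : 𝓞 K) ∈ v.asIdeal ∧ x ∈ v.asIdeal := by
  obtain ⟨P, hP, h1, h2⟩ := Ideal.exists_isMaximal_dvd_of_dvd_absNorm
    (Nat.prime_iff_prime_int.1 hp) (Ideal.span {x}) (by exact_mod_cast h)
  have hPx : x ∈ P := (Ideal.dvd_span_singleton).1 h2
  have hne : P ≠ ⊥ := by
    rintro rfl
    exact hx (by simpa using hPx)
  refine ⟨⟨P, hP.isPrime, hne⟩, ?_, hPx⟩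
  have h3 : (p : ℤ) ∈ P.under ℤ := by
    rw [h1]
    exact Ideal.mem_span_singleton_self _
  rw [Ideal.mem_comap] at h3
  simpa using h3

theorem exists_p (v : HeightOneSpectrum (𝓞 K)) :
    ∃ p : ℕ, p.Prime ∧ (p : 𝓞 K) ∈ v.asIdeal := by
  have : v.asIdeal.IsMaximal := v.isMaximal
  obtain ⟨p, n, -, h1, h2, -⟩ := Ideal.exists_prime_and_absNorm_eq_pow v.asIdeal
  exact ⟨p, h2, h1⟩

theorem two_le_nv (v : HeightOneSpectrum (𝓞 K)) : 2 ≤ nv v := by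
  obtain ⟨p, hp, hpv⟩ := exists_p v
  exact hp.two_le.trans (p_le_nv hp hpv)

theorem card_above {p : ℕ} (hp : p.Prime) (B : Finset (HeightOneSpectrum (𝓞 K)))
    (h : ∀ v ∈ B, (p : 𝓞 K) ∈ v.asIdeal) : B.card ≤ Module.finrank ℚ K := by
  have h1 := prod_nv_dvd B (p : 𝓞 K) h
  rw [Nm_nat] at h1
  have h2 : p ^ B.card ≤ ∏ v ∈ B, nv v := by
    rw [← Finset.prod_const]
    exact Finset.prod_le_prod' fun v hv => p_le_nv hp (h v hv)
  have h3 := h2.trans (Nat.le_of_dvd (pow_pos hp.pos _) h1)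
  exact (Nat.pow_le_pow_iff_right hp.one_lt).1 h3

theorem finite_above {x : 𝓞 K} (hx : x ≠ 0) :
    {v : HeightOneSpectrum (𝓞 K) | x ∈ v.asIdeal}.Finite := by
  have h1 : Ideal.span {x} ≠ (0 : Ideal (𝓞 K)) := by
    rw [Ne, Ideal.zero_eq_bot, Ideal.span_singleton_eq_bot]
    exact hx
  have h2 := Ideal.finite_factors h1
  refine h2.subset fun v hv => ?_
  exact Ideal.dvd_span_singleton.2 hv

theorem Nm_emb (x : 𝓞 K) : (Nm x : ℝ) = ∏ σ : K →+* ℂ, ‖σ (x : K)‖ := by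
  unfold Nm
  rw [Ideal.absNorm_span_singleton]
  have h1 : (((Algebra.norm ℤ x).natAbs : ℕ) : ℝ) = ‖((Algebra.norm ℤ x : ℤ) : ℂ)‖ := by
    rw [Complex.norm_intCast, Nat.cast_natAbs, Int.cast_abs]
  rw [h1]
  have h2 : ((Algebra.norm ℤ x : ℤ) : ℚ) = Algebra.norm ℚ (x : K) := Algebra.coe_norm_int x
  have h3 : ((Algebra.norm ℤ x : ℤ) : ℂ) = algebraMap ℚ ℂ (Algebra.norm ℚ (x : K)) := by
    rw [← h2]
    simp
  rw [h3, Algebra.norm_eq_prod_embeddings ℚ ℂ (x : K), norm_prod]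
  refine Fintype.prod_equiv (RingHom.equivRatAlgHom K ℂ).symm _ _ ?_
  intro σ
  rfl

end Pool.Agent.K4H5.HF
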