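import Pool.Agent.K4H5.HF.Univ
import Pool.Agent.K4H5.HF.Nrm
import Mathlib.RingTheory.LocalRing.ResidueField.Ideal
import Mathlib.FieldTheory.IsAlgClosed.AlgebraicClosure

/-!
Zeros of a form modulo a prime, and classes of the parameter of a pencil.
-/

set_option autoImplicit false
set_option linter.unusedSectionVars false

open NumberField IsDedekindDomain Polynomial

namespace Pool.Agent.K4H5.HF

variable {K : Type} [Field K] [NumberField K]

/-- reduction modulo `v` -/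
noncomputable def ph (v : HeightOneSpectrum (𝓞 K)) :
    𝓞 K →+* AlgebraicClosure v.asIdeal.ResidueField :=
  (algebraMap v.asIdeal.ResidueField (AlgebraicClosure v.asIdeal.ResidueField)).comp
    (algebraMap (𝓞 K) v.asIdeal.ResidueField)

theorem ph_zero (v : HeightOneSpectrum (𝓞 K)) (x : 𝓞 K) : ph v x = 0 ↔ x ∈ v.asIdeal := by
  unfold ph
  rw [RingHom.comp_apply, FaithfulSMul.algebraMap_eq_zero_iff]
  exact Ideal.algebraMap_residueField_eq_zero

variable {N : ℕ}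

theorem ph_mul_last (v : HeightOneSpectrum (𝓞 K)) (c : Fin (N + 1) → 𝓞 K)
    (h : (N : 𝓞 K) * c (Fin.last N) ∉ v.asIdeal) :
    (N : AlgebraicClosure v.asIdeal.ResidueField) * ph v (c (Fin.last N)) ≠ 0 := by
  rw [← ph_zero, map_mul, map_natCast] at h
  exact h

theorem zv_eq (M : ℕ) (v : HeightOneSpectrum (𝓞 K)) (c : Fin (N + 1) → 𝓞 K)
    (h : (N : 𝓞 K) * c (Fin.last N) ∉ v.asIdeal) :
    zv M v (fp c) = nr (fp fun i => ph v (c i)) + (if N < M then 1 else 0) := by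
  have hc := ph_mul_last v c h
  unfold zv zeros
  have h1 : ((fp c).map (algebraMap (𝓞 K) v.asIdeal.ResidueField)).map
      (algebraMap v.asIdeal.ResidueField (AlgebraicClosure v.asIdeal.ResidueField)) =
      fp fun i => ph v (c i) := by
    rw [Polynomial.map_map]
    exact fp_map (ph v) c
  have h2 : ((fp c).map (algebraMap (𝓞 K) v.asIdeal.ResidueField)).natDegree = N := by
    rw [← natDegree_map (algebraMap v.asIdeal.ResidueField
      (AlgebraicClosure v.asIdeal.ResidueField)), h1]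
    exact fp_deg _ hc
  rw [h1, h2]

theorem nr_eq_N (hN : 2 ≤ N) (v : HeightOneSpectrum (𝓞 K)) (c : Fin (N + 1) → 𝓞 K)
    (h : (N : 𝓞 K) * c (Fin.last N) ∉ v.asIdeal) :
    nr (fp fun i => ph v (c i)) = N ↔ Dd c ∉ v.asIdeal := by
  rw [nr_eq_iff hN _ (ph_mul_last v c h), ← ph_zero, Dd_map]

/-- all zeros are different -/
theorem z_full {M : ℕ} (hM : N = M ∨ N + 1 = M) (hN : 2 ≤ N) (v : HeightOneSpectrum (𝓞 K))
    (c : Fin (N + 1) → 𝓞 K) (h : (N : 𝓞 K) * c (Fin.last N) ∉ v.asIdeal)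
    (hD : Dd c ∉ v.asIdeal) : zv M v (fp c) = M := by
  rw [zv_eq M v c h, (nr_eq_N hN v c h).2 hD]
  split_ifs <;> omega

/-- one double zero -/
theorem z_node {M : ℕ} (hM : N = M ∨ N + 1 = M) (hN : 2 ≤ N) (v : HeightOneSpectrum (𝓞 K))
    (c : Fin (N + 1) → 𝓞 K) (h : (N : 𝓞 K) * c (Fin.last N) ∉ v.asIdeal)
    (hD : Dd c ∈ v.asIdeal) (hE : Ee c ∉ v.asIdeal) : zv M v (fp c) = M - 1 := by
  have h1 := nr_le hN (fun i => ph v (c i)) (ph_mul_last v c h)
  have h2 : nr (fp fun i => ph v (c i)) ≠ N := fun h3 => (nr_eq_N hN v c h).1 h3 hD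
  rw [← ph_zero, Ee_map] at hE
  have h3 := nr_ge hN (fun i => ph v (c i)) (ph_mul_last v c h) hE
  rw [zv_eq M v c h]
  split_ifs <;> omega

/-- more double zeros -/
theorem z_bad {M : ℕ} (hM : N = M ∨ N + 1 = M) (hN : 2 ≤ N) (v : HeightOneSpectrum (𝓞 K))
    (c : Fin (N + 1) → 𝓞 K) (h : (N : 𝓞 K) * c (Fin.last N) ∉ v.asIdeal)
    (hz : zv M v (fp c) < M - 1) : Ee c ∈ v.asIdeal ∧ Dd c ∈ v.asIdeal := by
  constructor
  · by_contra hE
    rw [← ph_zero, Ee_map] at hE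
    have h3 := nr_ge hN (fun i => ph v (c i)) (ph_mul_last v c h) hE
    rw [zv_eq M v c h] at hz
    split_ifs at hz <;> omega
  · by_contra hD
    have := z_full hM hN v c h hD
    omega

/-- removal of the leading coefficient -/
def tr {R : Type} {m : ℕ} (c : Fin (m + 1 + 1) → R) : Fin (m + 1) → R := fun i => c i.castSucc

theorem fp_tr {R : Type} [CommRing R] {m : ℕ} (c : Fin (m + 1 + 1) → R)
    (h : c (Fin.last (m + 1)) = 0) : fp c = fp (tr c) := by
  unfold fp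
  rw [Fin.sum_univ_castSucc, h, C_0, zero_mul, add_zero]
  rfl

theorem z_tr {m M : ℕ} (hM : m + 1 = M ∨ m + 1 + 1 = M) (hm : 2 ≤ m)
    (v : HeightOneSpectrum (𝓞 K)) (c : Fin (m + 1 + 1) → 𝓞 K)
    (h0 : c (Fin.last (m + 1)) ∈ v.asIdeal)
    (h1 : (m : 𝓞 K) * tr c (Fin.last m) ∉ v.asIdeal) (hD : Dd (tr c) ∉ v.asIdeal) :
    M - 1 ≤ zv M v (fp c) := by
  have hc := ph_mul_last v (tr c) h1
  have hz : ph v (c (Fin.last (m + 1))) = 0 := (ph_zero v _).2 h0
  have h2 : ((fp c).map (algebraMap (𝓞 K) v.asIdeal.ResidueField)).map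
      (algebraMap v.asIdeal.ResidueField (AlgebraicClosure v.asIdeal.ResidueField)) =
      fp fun i => ph v (tr c i) := by
    rw [Polynomial.map_map]
    refine (fp_map (ph v) c).trans ?_
    exact fp_tr (fun i => ph v (c i)) hz
  have h3 : ((fp c).map (algebraMap (𝓞 K) v.asIdeal.ResidueField)).natDegree = m := by
    rw [← natDegree_map (algebraMap v.asIdeal.ResidueField
      (AlgebraicClosure v.asIdeal.ResidueField)), h2]
    exact fp_deg _ hc
  unfold zv zeros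
  rw [h2, h3, if_pos (by omega), (nr_eq_N hm v (tr c) h1).2 hD]
  omega

/-- the classes of the parameter for one place -/
theorem cls_one (hN : 2 ≤ N) {p : ℕ} (hp : p.Prime) (v : HeightOneSpectrum (𝓞 K))
    (hpv : (p : 𝓞 K) ∈ v.asIdeal) (c : Fin (N + 1) → 𝓞 K)
    (h : (N : 𝓞 K) * c (Fin.last N) ∉ v.asIdeal) :
    ∃ Z : Finset ℤ, Z.card ≤ N - 1 ∧ ∀ t : ℤ, Dd (sh c (t : 𝓞 K)) ∈ v.asIdeal →
      ∃ s ∈ Z, (p : ℤ) ∣ t - s := by
  classical
  have hc := ph_mul_last v c h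
  set Q := DT (fun i => ph v (c i)) with hQ
  have hQ0 : Q ≠ 0 := DT_ne hN _ hc
  set ch : AlgebraicClosure v.asIdeal.ResidueField → ℤ := fun r =>
    if hr : ∃ s : ℤ, ph v (s : 𝓞 K) = r then hr.choose else 0 with hch
  refine ⟨Q.roots.toFinset.image ch, ?_, ?_⟩
  · refine Finset.card_image_le.trans ((Multiset.toFinset_card_le _).trans
      ((card_roots' _).trans ?_))
    rw [hQ, DT_deg hN _ hc]
  · intro t ht
    rw [← ph_zero, Dd_map, sh_map, ← DT_eval] at ht
    refine ⟨ch (ph v (t : 𝓞 K)), Finset.mem_image_of_mem _ ?_, ?_⟩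
    · rw [Multiset.mem_toFinset, mem_roots hQ0]
      exact ht
    · have hex : ∃ s : ℤ, ph v (s : 𝓞 K) = ph v (t : 𝓞 K) := ⟨t, rfl⟩
      have h1 : ch (ph v (t : 𝓞 K)) = hex.choose := by
        rw [hch]
        exact dif_pos hex
      have h2 := hex.choose_spec
      rw [h1, ← int_mem hp hpv, ← ph_zero]
      push_cast
      rw [map_sub, h2, sub_self]

/-- the classes for all places over `p` -/
theorem cls_union {p : ℕ} (hp : p.Prime) (k : ℕ) (A : HeightOneSpectrum (𝓞 K) → ℤ → Prop)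
    (h : ∀ v : HeightOneSpectrum (𝓞 K), (p : 𝓞 K) ∈ v.asIdeal → ∃ Z : Finset ℤ, Z.card ≤ k ∧
      ∀ t, A v t → ∃ s ∈ Z, (p : ℤ) ∣ t - s) :
    ∃ Z : Finset ℤ, Z.card ≤ Module.finrank ℚ K * k ∧
      ∀ v : HeightOneSpectrum (𝓞 K), (p : 𝓞 K) ∈ v.asIdeal → ∀ t, A v t →
        ∃ s ∈ Z, (p : ℤ) ∣ t - s := by
  classical
  have hp0 : (p : 𝓞 K) ≠ 0 := by exact_mod_cast hp.ne_zero
  set B := (finite_above hp0).toFinset with hB
  have hBm : ∀ v, v ∈ B ↔ (p : 𝓞 K) ∈ v.asIdeal := fun v => by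
    rw [hB, Set.Finite.mem_toFinset]
    rfl
  choose! Z hZ1 hZ2 using h
  refine ⟨B.biUnion Z, ?_, ?_⟩
  · refine Finset.card_biUnion_le.trans ?_
    refine (Finset.sum_le_card_nsmul _ _ k fun v hv => hZ1 v ((hBm v).1 hv)).trans ?_
    rw [smul_eq_mul]
    exact Nat.mul_le_mul_right _ (card_above hp B fun v hv => (hBm v).1 hv)
  · intro v hv t ht
    obtain ⟨s, hs, hs2⟩ := hZ2 v hv t ht
    exact ⟨s, Finset.mem_biUnion.2 ⟨v, (hBm v).2 hv, hs⟩, hs2⟩

/-- the discriminant of the discriminant does not depend on the parameter -/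
theorem Ee_sh_mem (hN : 2 ≤ N) (v : HeightOneSpectrum (𝓞 K)) (c : Fin (N + 1) → 𝓞 K)
    (h : (N : 𝓞 K) * c (Fin.last N) ∉ v.asIdeal) (t : 𝓞 K) :
    Ee (sh c t) ∈ v.asIdeal ↔ Ee c ∈ v.asIdeal := by
  have hc := ph_mul_last v c h
  rw [← ph_zero, ← ph_zero, Ee_map, Ee_map, sh_map, ← not_iff_not]
  have hc2 : (N : AlgebraicClosure v.asIdeal.ResidueField) *
      sh (fun i => ph v (c i)) (ph v t) (Fin.last N) ≠ 0 := by
    rw [sh_last hN]
    exact hc
  rw [← Ne, ← Ne, Ee_ne_iff hN _ hc2, Ee_ne_iff hN _ hc, fp_sh, derivative_add, derivative_C,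
    add_zero]
  have h5 : ((derivative (fp fun i => ph v (c i))).roots.map
      (fp (fun i => ph v (c i)) + C (ph v t)).eval) =
      ((derivative (fp fun i => ph v (c i))).roots.map (fp fun i => ph v (c i)).eval).map
        fun x => x + ph v t := by
    rw [Multiset.map_map]
    refine Multiset.map_congr rfl fun b _ => ?_
    simp
  rw [h5]
  exact Multiset.nodup_map_iff_of_injective (add_left_injective _)

end Pool.Agent.K4H5.HF
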