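import Pool.Agent.K4H5.HF.Det

/-!
The inequality of Frey for almost all hyperelliptic Jacobians.
-/

set_option autoImplicit false
set_option linter.unusedSectionVars false

open NumberField IsDedekindDomain Polynomial Finset

namespace Pool.Agent.K4H5.HF

variable {K : Type} [Field K] [NumberField K]

theorem nodal_places {g m : ℕ} (hg : 1 ≤ g) (hm : m = 2 * g ∨ m = 2 * g + 1) {ε : ℝ}
    {H : ℕ} (hH : 1 ≤ H) (c : Fin (m + 1 + 1) → 𝓞 K) (hcl : c (Fin.last (m + 1)) ≠ 0)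
    (h1 : ¬ Bad1 ε H c) : Dd c ≠ 0 ∧ ∃ T : Finset (HeightOneSpectrum (𝓞 K)),
      (∀ v ∈ T, (2 : 𝓞 K) ∉ v.asIdeal ∧ zv (2 * g + 2) v (fp c) = 2 * g + 1) ∧
      (1 - 2 * ε) * Real.log H ≤ ∑ v ∈ T, Real.log (nv v) := by
  classical
  unfold Bad1 Rs at h1
  push Not at h1
  obtain ⟨⟨hD, h2⟩, h3, -⟩ := h1
  refine ⟨hD, ?_⟩
  have hH0 : (0 : ℝ) < H := by exact_mod_cast hH
  set Q := (Nm (Dd c)).primeFactors \
    (Nm (((2 * (m + 1) : ℕ) : 𝓞 K) * c (Fin.last (m + 1)))).primeFactors with hQ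
  set Qa := Q.filter (Pa c) with hQa
  set Q1 := Q.filter fun p => ¬ Pa c p with hQ1
  have hQp : ∀ p ∈ Q, p.Prime := fun p hp => by
    rw [hQ, mem_sdiff] at hp
    exact Nat.prime_of_mem_primeFactors hp.1
  have hprod : (∏ p ∈ Qa, p) * ∏ p ∈ Q1, p = ∏ p ∈ Q, p := prod_filter_mul_prod_filter_not _ _ _
  have ha : ((∏ p ∈ Qa, p : ℕ) : ℝ) ≤ (H : ℝ) ^ ε := by
    by_contra hcon
    exact h3 ⟨Qa, fun p hp => (mem_filter.1 hp).2, not_le.1 hcon⟩
  have hQapos : 0 < ∏ p ∈ Qa, p := prod_pos fun p hp => (hQp p (mem_filter.1 hp).1).pos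
  have hQ1pos : 0 < ∏ p ∈ Q1, p := prod_pos fun p hp => (hQp p (mem_filter.1 hp).1).pos
  have hla : Real.log ((∏ p ∈ Qa, p : ℕ) : ℝ) ≤ ε * Real.log H := by
    rw [← Real.log_rpow hH0]
    exact Real.log_le_log (Nat.cast_pos.2 hQapos) ha
  have hlQ : (1 - ε) * Real.log H ≤ Real.log ((∏ p ∈ Q, p : ℕ) : ℝ) := by
    rw [← Real.log_rpow hH0]
    exact Real.log_le_log (by positivity) h2.le
  have hl1 : (1 - 2 * ε) * Real.log H ≤ Real.log ((∏ p ∈ Q1, p : ℕ) : ℝ) := by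
    rw [← hprod, Nat.cast_mul, Real.log_mul (Nat.cast_pos.2 hQapos).ne'
      (Nat.cast_pos.2 hQ1pos).ne'] at hlQ
    linarith
  have hex : ∀ p ∈ Q1, ∃ v : HeightOneSpectrum (𝓞 K), (p : 𝓞 K) ∈ v.asIdeal ∧
      (2 : 𝓞 K) ∉ v.asIdeal ∧ zv (2 * g + 2) v (fp c) = 2 * g + 1 := by
    intro p hp
    rw [hQ1, mem_filter] at hp
    obtain ⟨hpQ, hpa⟩ := hp
    have hpp := hQp p hpQ
    rw [hQ, mem_sdiff] at hpQ
    obtain ⟨v, hv1, hv2⟩ := exists_v hpp hD (Nat.dvd_of_mem_primeFactors hpQ.1)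
    have hv3 : ((2 * (m + 1) : ℕ) : 𝓞 K) * c (Fin.last (m + 1)) ∉ v.asIdeal := by
      intro h
      apply hpQ.2
      refine Nat.mem_primeFactors.2 ⟨hpp, p_dvd_Nm hpp hv1 h, Nm_ne (mul_ne_zero ?_ ?_)⟩
      · exact Nat.cast_ne_zero.2 (by omega)
      · exact hcl
    have hv4 : (2 : 𝓞 K) ∉ v.asIdeal := by
      intro h
      apply hv3
      push_cast
      rw [mul_assoc]
      exact v.asIdeal.mul_mem_right _ h
    have hv5 : ((m + 1 : ℕ) : 𝓞 K) * c (Fin.last (m + 1)) ∉ v.asIdeal := by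
      intro h
      apply hv3
      rw [Nat.cast_mul, mul_assoc]
      exact v.asIdeal.mul_mem_left _ h
    refine ⟨v, hv1, hv4, ?_⟩
    have hE : Ee c ∉ v.asIdeal := fun h => hpa ⟨hpp, v, hv1, hv5, h, hv2⟩
    have e1 := z_node (M := 2 * g + 2) (by omega) (by omega) v c hv5 hv2 hE
    omega
  have : Nonempty (HeightOneSpectrum (𝓞 K)) := by
    obtain ⟨v, -⟩ := exists_v (K := K) Nat.prime_two (x := ((2 : ℕ) : 𝓞 K))
      (Nat.cast_ne_zero.2 two_ne_zero) (by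
        rw [Nm_nat]
        exact dvd_pow_self 2 (Module.finrank_pos (R := ℚ) (M := K)).ne')
    exact ⟨v⟩
  choose! w hw1 hw2 hw3 using hex
  refine ⟨Q1.image w, ?_, ?_⟩
  · intro v hv
    rw [mem_image] at hv
    obtain ⟨p, hp, rfl⟩ := hv
    exact ⟨hw2 p hp, hw3 p hp⟩
  · refine hl1.trans ?_
    have hinj : Set.InjOn w Q1 := by
      intro p hp q hq hpq
      have h5 := hw1 p hp
      rw [hpq] at h5
      exact p_unique (hQp p (mem_filter.1 hp).1) (hQp q (mem_filter.1 hq).1) h5 (hw1 q hq)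
    rw [sum_image hinj, Nat.cast_prod, Real.log_prod fun p hp => by
      exact_mod_cast (hQp p (mem_filter.1 hp).1).ne_zero]
    refine sum_le_sum fun p hp => ?_
    have hpp := hQp p (mem_filter.1 hp).1
    exact Real.log_le_log (by exact_mod_cast hpp.pos) (by exact_mod_cast p_le_nv hpp (hw1 p hp))

theorem bad_places {g m : ℕ} (hg : 1 ≤ g) (hm : m = 2 * g ∨ m = 2 * g + 1) {ε : ℝ}
    {H : ℕ} (hH : 1 ≤ H) (c : Fin (m + 1 + 1) → 𝓞 K) (h1 : ¬ Bad1 ε H c) (h2 : ¬ Bad2 ε H c)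
    (B : Finset (HeightOneSpectrum (𝓞 K)))
    (hB : ∀ v ∈ B, (2 : 𝓞 K) ∈ v.asIdeal ∨ zv (2 * g + 2) v (fp c) < 2 * g + 1) :
    ∑ v ∈ B, Real.log (nv v) ≤
      Real.log (Nm (((2 * (m + 1) * m : ℕ) : 𝓞 K))) +
        3 * (Module.finrank ℚ K * (ε * Real.log H)) := by
  classical
  have hH0 : (0 : ℝ) < H := by exact_mod_cast hH
  unfold Bad1 at h1
  push Not at h1
  obtain ⟨-, ha, hb⟩ := h1
  set x₀ : 𝓞 K := ((2 * (m + 1) * m : ℕ) : 𝓞 K) with hx₀
  have hx0 : x₀ ≠ 0 := Nat.cast_ne_zero.2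
    (mul_ne_zero (mul_ne_zero two_ne_zero (Nat.succ_ne_zero m)) (by omega))
  set B₀ := B.filter fun v => x₀ ∈ v.asIdeal with hB₀
  set B₁ := B.filter fun v => ∃ p, Pa c p ∧ (p : 𝓞 K) ∈ v.asIdeal with hB₁
  set B₂ := B.filter fun v => ∃ p, Pb c p ∧ (p : 𝓞 K) ∈ v.asIdeal with hB₂
  set B₃ := B.filter fun v => ∃ p, Pc c p ∧ (p : 𝓞 K) ∈ v.asIdeal with hB₃
  have hcov : B ⊆ B₀ ∪ (B₁ ∪ (B₂ ∪ B₃)) := by
    intro v hv
    rw [mem_union, mem_union, mem_union, hB₀, hB₁, hB₂, hB₃, mem_filter, mem_filter, mem_filter,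
      mem_filter]
    by_cases h0 : x₀ ∈ v.asIdeal
    · exact Or.inl ⟨hv, h0⟩
    right
    obtain ⟨p, hp, hpv⟩ := exists_p v
    have hv2 : (2 : 𝓞 K) ∉ v.asIdeal := by
      intro h
      apply h0
      rw [hx₀]
      push_cast
      rw [mul_assoc]
      exact v.asIdeal.mul_mem_right _ h
    have hvN : ((m + 1 : ℕ) : 𝓞 K) ∉ v.asIdeal := by
      intro h
      apply h0
      rw [hx₀, Nat.cast_mul, Nat.cast_mul]
      exact v.asIdeal.mul_mem_right _ (v.asIdeal.mul_mem_left _ h)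
    have hvm : ((m : ℕ) : 𝓞 K) ∉ v.asIdeal := by
      intro h
      apply h0
      rw [hx₀, Nat.cast_mul]
      exact v.asIdeal.mul_mem_left _ h
    have hzv : zv (2 * g + 2) v (fp c) < 2 * g + 1 := (hB v hv).resolve_left hv2
    by_cases hl : c (Fin.last (m + 1)) ∈ v.asIdeal
    · right
      by_cases hl2 : tr c (Fin.last m) ∈ v.asIdeal
      · right
        exact ⟨hv, p, ⟨hp, v, hpv, hl, hl2⟩, hpv⟩
      · left
        have h3 : ((m : ℕ) : 𝓞 K) * tr c (Fin.last m) ∉ v.asIdeal := fun h =>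
          (v.isPrime.mem_or_mem h).elim hvm hl2
        refine ⟨hv, p, ⟨hp, v, hpv, hl, h3, ?_⟩, hpv⟩
        by_contra hD
        have := z_tr (M := 2 * g + 2) (by omega) (by omega) v c hl h3 hD
        omega
    · left
      have h3 : ((m + 1 : ℕ) : 𝓞 K) * c (Fin.last (m + 1)) ∉ v.asIdeal := fun h =>
          (v.isPrime.mem_or_mem h).elim hvN hl
      obtain ⟨hE, hD⟩ := z_bad (M := 2 * g + 2) (by omega) (by omega) v c h3 (by omega)
      exact ⟨hv, p, ⟨hp, v, hpv, h3, hE, hD⟩, hpv⟩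
  have s0 : ∑ v ∈ B₀, Real.log (nv v) ≤ Real.log (Nm x₀) :=
    sum_log_const hx0 B₀ fun v hv => (mem_filter.1 hv).2
  have s1 : ∑ v ∈ B₁, Real.log (nv v) ≤ Module.finrank ℚ K * (ε * Real.log H) := by
    rw [← Real.log_rpow hH0]
    exact sum_log_le (Pa c) (fun p hp => hp.1) ha B₁ fun v hv => (mem_filter.1 hv).2
  have s2 : ∑ v ∈ B₂, Real.log (nv v) ≤ Module.finrank ℚ K * (ε * Real.log H) := by
    rw [← Real.log_rpow hH0]
    exact sum_log_le (Pb c) (fun p hp => hp.1) hb B₂ fun v hv => (mem_filter.1 hv).2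
  have s3 : ∑ v ∈ B₃, Real.log (nv v) ≤ Module.finrank ℚ K * (ε * Real.log H) := by
    rw [← Real.log_rpow hH0]
    exact sum_log_le (Pc c) (fun p hp => hp.1) h2 B₃ fun v hv => (mem_filter.1 hv).2
  have hun : ∀ X Y : Finset (HeightOneSpectrum (𝓞 K)), ∑ v ∈ X ∪ Y, Real.log (nv v) ≤
      ∑ v ∈ X, Real.log (nv v) + ∑ v ∈ Y, Real.log (nv v) := by
    intro X Y
    rw [← sum_union_inter]
    have : 0 ≤ ∑ v ∈ X ∩ Y, Real.log (nv v) := sum_nonneg fun v _ => (log_nv_pos v).le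
    linarith
  have t1 := sum_le_sum_of_subset_of_nonneg hcov (f := fun v => Real.log (nv v))
    fun v _ _ => (log_nv_pos v).le
  have t2 := hun B₀ (B₁ ∪ (B₂ ∪ B₃))
  have t3 := hun B₁ (B₂ ∪ B₃)
  have t4 := hun B₂ B₃
  linarith

/-- the inequality for a good coefficient vector -/
theorem det_main (K : Type) [Field K] [NumberField K] (g m : ℕ) (hg : 1 ≤ g)
    (hm : m = 2 * g ∨ m = 2 * g + 1) (η : ℝ) (hη : 0 < η) (C₀ : ℝ) (hC₀ : 1 ≤ C₀) :
    ∃ C : ℝ, ∀ H : ℕ, 1 ≤ H → ∀ c : Fin (m + 1 + 1) → 𝓞 K, Sz (C₀ * H) c →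
      c (Fin.last (m + 1)) ≠ 0 → ¬ Bad1 (2 * η / (5 * g + 4 * η)) H c →
      ¬ Bad2 (2 * η / (5 * g + 4 * η)) H c → Frey g (g / 2 + η) C (fp c) := by
  classical
  obtain ⟨Ca, hCa, ha⟩ := arch g (2 * g + 2)
  set d := Module.finrank ℚ K with hd
  have hd0 : 1 ≤ d := Module.finrank_pos
  have hdR : (1 : ℝ) ≤ d := by exact_mod_cast hd0
  have hgR : (1 : ℝ) ≤ g := by exact_mod_cast hg
  set ε : ℝ := 2 * η / (5 * g + 4 * η) with hε
  have hden : (0 : ℝ) < 5 * g + 4 * η := by positivity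
  have hε0 : 0 < ε := by positivity
  set Cb : ℝ := Real.log (Nm (((2 * (m + 1) * m : ℕ) : 𝓞 K))) with hCb
  have hCb0 : 0 ≤ Cb := Real.log_natCast_nonneg _
  refine ⟨Ca + g / 2 * Real.log C₀ + g / 2 * Cb, ?_⟩
  intro H hH c hc hcl h1 h2
  have hHR : (1 : ℝ) ≤ H := by exact_mod_cast hH
  have hH0 : (0 : ℝ) < H := by linarith
  obtain ⟨hD, T, hT, hTsum⟩ := nodal_places hg hm hH c hcl h1
  refine ⟨zeros_K (by omega) (by omega) c hcl hD, fun e he => ?_⟩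
  set L := Real.log H with hL
  have hL0 : 0 ≤ L := Real.log_nonneg hHR
  set O := (oddv_finite he).toFinset with hO
  have hOm : ∀ v, v ∈ O ↔ v ∈ oddv e := fun v => by rw [hO, Set.Finite.mem_toFinset]
  set G := O.filter fun v => (2 : 𝓞 K) ∉ v.asIdeal ∧ 2 * g + 1 ≤ zv (2 * g + 2) v (fp c) with hG
  set B := O.filter fun v => ¬ ((2 : 𝓞 K) ∉ v.asIdeal ∧ 2 * g + 1 ≤ zv (2 * g + 2) v (fp c)) with hB
  have hsplit : ∑ v ∈ G, Real.log (nv v) + ∑ v ∈ B, Real.log (nv v) =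
      ∑ v ∈ O, Real.log (nv v) := sum_filter_add_sum_filter_not _ _ _
  have hcond := cond_ge c hcl hg hm hD he T hT G (fun v hv => by
    rw [hG, mem_filter, hOm] at hv
    exact hv)
  have hbad := bad_places hg hm hH c h1 h2 B (fun v hv => by
    rw [hB, mem_filter] at hv
    by_contra hcon
    rw [not_or, not_lt] at hcon
    exact hv.2 hcon)
  have hG0 : 0 ≤ ∑ v ∈ G, Real.log (nv v) := sum_nonneg fun v _ => (log_nv_pos v).le
  -- the archimedean part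
  have hM1 : 1 ≤ C₀ * H := by nlinarith
  have harch : ∀ σ : K →+* ℂ, -(1 / 2) * Real.log (vol g ((fp c).map (em σ))) ≤
      Ca + g / 2 * (Real.log C₀ + L) := by
    intro σ
    rw [hL, ← Real.log_mul (by positivity) hH0.ne']
    refine ha _ ?_ (C₀ * H) hM1 ?_
    · exact (natDegree_map_le).trans ((fp_natDegree c).trans (by omega))
    · intro i
      rw [coeff_map]
      rcases lt_or_ge i (m + 1 + 1) with h | h
      · have h3 := fp_coeff c ⟨i, h⟩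
        rw [show ((⟨i, h⟩ : Fin (m + 1 + 1)) : ℕ) = i from rfl] at h3
        rw [h3]
        exact hc _ σ
      · rw [coeff_eq_zero_of_natDegree_lt (lt_of_le_of_lt (fp_natDegree c) (by omega)), map_zero,
          norm_zero]
        linarith
  have hsum : ∑ σ : K →+* ℂ, -(1 / 2) * Real.log (vol g ((fp c).map (em σ))) ≤
      d * (Ca + g / 2 * (Real.log C₀ + L)) := by
    refine (sum_le_card_nsmul _ _ _ fun σ _ => harch σ).trans ?_
    rw [card_univ, Embeddings.card, nsmul_eq_mul]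
  unfold height
  rw [finsum_mem_eq_finite_toFinset_sum _ (oddv_finite he), ← hO, ← hsplit]
  set SG := ∑ v ∈ G, Real.log (nv v) with hSG
  set SB := ∑ v ∈ B, Real.log (nv v) with hSB
  have e1 : (d : ℝ)⁻¹ * ((∑ σ : K →+* ℂ, -(1 / 2) * Real.log (vol g ((fp c).map (em σ)))) +
      g / 2 * (SG + SB)) ≤ (d : ℝ)⁻¹ * (d * (Ca + g / 2 * (Real.log C₀ + L)) +
        g / 2 * (SG + (Cb + 3 * (d * (ε * L))))) := by
    refine mul_le_mul_of_nonneg_left ?_ (by positivity)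
    refine add_le_add hsum (mul_le_mul_of_nonneg_left ?_ (by positivity))
    linarith
  refine e1.trans ?_
  have e2 : (d : ℝ)⁻¹ * (d * (Ca + g / 2 * (Real.log C₀ + L)) +
        g / 2 * (SG + (Cb + 3 * (d * (ε * L))))) =
      Ca + g / 2 * (Real.log C₀ + L) + g / 2 * ((d : ℝ)⁻¹ * SG + (d : ℝ)⁻¹ * Cb + 3 * (ε * L)) := by
    field_simp
    ring
  rw [e2]
  have hdinv : (d : ℝ)⁻¹ ≤ 1 := inv_le_one_of_one_le₀ hdR
  have e3 : (d : ℝ)⁻¹ * SG ≤ SG := by nlinarith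
  have e4 : (d : ℝ)⁻¹ * Cb ≤ Cb := by nlinarith
  have e5 : (g / 2 + η) * (SG + (1 - 2 * ε) * L) ≤ (g / 2 + η) * Real.log (cond g (fp c) e) := by
    refine mul_le_mul_of_nonneg_left ?_ (by positivity)
    linarith
  have e6 : ε * (5 * g + 4 * η) = 2 * η := by
    rw [hε]
    field_simp
  have e7 : g / 2 * L + g / 2 * (3 * (ε * L)) ≤ (g / 2 + η) * ((1 - 2 * ε) * L) := by
    have e8 : (g / 2 + η) * ((1 - 2 * ε) * L) - (g / 2 * L + g / 2 * (3 * (ε * L))) =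
        (η - ε * (5 * g + 4 * η) / 2) * L := by ring
    rw [e6] at e8
    have e9 : (η - 2 * η / 2) * L = 0 := by ring
    linarith
  have e10 : g / 2 * SG ≤ (g / 2 + η) * SG := by nlinarith
  have e11 : (g : ℝ) / 2 * ((d : ℝ)⁻¹ * SG + (d : ℝ)⁻¹ * Cb + 3 * (ε * L)) ≤
      g / 2 * (SG + Cb + 3 * (ε * L)) := by
    refine mul_le_mul_of_nonneg_left ?_ (by positivity)
    linarith
  have e12 : (g : ℝ) / 2 * (Real.log C₀ + L) = g / 2 * Real.log C₀ + g / 2 * L := by ring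
  have e13 : (g : ℝ) / 2 * (SG + Cb + 3 * (ε * L)) =
      g / 2 * SG + g / 2 * Cb + g / 2 * (3 * (ε * L)) := by ring
  have e14 : (g / 2 + η) * (SG + (1 - 2 * ε) * L) =
      (g / 2 + η) * SG + (g / 2 + η) * ((1 - 2 * ε) * L) := by ring
  linarith

/-- The inequality of Frey for almost all coefficient vectors. -/
theorem frey_box (K : Type) [Field K] [NumberField K] (g m : ℕ) (hg : 1 ≤ g)
    (hm : m = 2 * g ∨ m = 2 * g + 1) (η : ℝ)
    (hη : 0 < η) : ∃ C : ℝ, ∀ H : ℕ, 1 ≤ H → ∀ B : Finset (Fin (m + 1 + 1) → 𝓞 K),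
      (∀ c ∈ B, (∀ i, c i ∈ box K H) ∧ ¬ Frey g (g / 2 + η) C (fp c)) →
      (B.card : ℝ) ≤ C * (H : ℝ) ^ (((m + 2) * Module.finrank ℚ K : ℕ) -
        η / (5 * g + 4 * η) : ℝ) := by
  obtain ⟨C₀, hC₀, hsize⟩ := box_size K
  obtain ⟨C₁, h1⟩ := det_main K g m hg hm η hη C₀ hC₀
  have hgR : (1 : ℝ) ≤ g := by exact_mod_cast hg
  have hε0 : 0 < 2 * η / (5 * g + 4 * η) := by positivity
  have hε1 : 2 * η / (5 * g + 4 * η) ≤ 1 := by
    rw [div_le_one (by positivity)]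
    linarith
  obtain ⟨C₂, hC₂, h2⟩ := box_count K m (by omega) _ hε0 hε1
  refine ⟨max C₁ C₂, fun H hH B hB => ?_⟩
  have h3 := h2 H hH B fun c hc => ⟨(hB c hc).1, ?_⟩
  · refine h3.trans ?_
    have e1 : (((m + 2) * Module.finrank ℚ K : ℕ) : ℝ) - 2 * η / (5 * g + 4 * η) / 2 =
        (((m + 2) * Module.finrank ℚ K : ℕ) : ℝ) - η / (5 * g + 4 * η) := by
      congr 1
      ring
    rw [e1]
    exact mul_le_mul_of_nonneg_right (le_max_right _ _) (by positivity)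
  · by_contra hcon
    rw [not_or, not_or] at hcon
    obtain ⟨hb1, hb2, hcl⟩ := hcon
    obtain ⟨h4, h5⟩ := h1 H hH c (fun i σ => hsize H (c i) ((hB c hc).1 i) σ) hcl hb1 hb2
    refine (hB c hc).2 ⟨h4, fun e he => (h5 e he).trans ?_⟩
    have := le_max_left C₁ C₂
    linarith

/-- The inequality of Frey for almost all members of all pencils `F + t`. -/
theorem frey_pencil (K : Type) [Field K] [NumberField K] (g m : ℕ) (hg : 1 ≤ g)
    (hm : m = 2 * g ∨ m = 2 * g + 1) (η : ℝ)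
    (hη : 0 < η) : ∃ C : ℝ, ∀ H : ℕ, 1 ≤ H → ∀ F : (𝓞 K)[X], F.Monic → F.natDegree = m + 1 →
      (∀ i < m + 1, F.coeff i ∈ box K H) → ∀ σ : K →+* ℂ,
      ((derivative (F.map (em σ))).roots.map (F.map (em σ)).eval).Nodup → ∀ Z : Finset ℤ,
      (∀ t ∈ Z, |t| ≤ H ∧ ¬ Frey g (g / 2 + η) C (F + Polynomial.C (t : 𝓞 K))) →
      (Z.card : ℝ) ≤ C * (H : ℝ) ^ (1 - η / (5 * g + 4 * η) : ℝ) := by
  obtain ⟨C₀, hC₀, hsize⟩ := box_size K
  obtain ⟨C₁, h1⟩ := det_main K g m hg hm η hη (C₀ + 1) (by linarith)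
  have hgR : (1 : ℝ) ≤ g := by exact_mod_cast hg
  have hε0 : 0 < 2 * η / (5 * g + 4 * η) := by positivity
  have hε1 : 2 * η / (5 * g + 4 * η) ≤ 1 := by
    rw [div_le_one (by positivity)]
    linarith
  obtain ⟨C₂, hC₂, h2⟩ := bad1_count K m (by omega) C₀ hC₀ _ hε0 hε1
  refine ⟨max C₁ C₂, fun H hH F hF hdeg hbox σ hσ Z hZ => ?_⟩
  have hHR : (1 : ℝ) ≤ H := by exact_mod_cast hH
  set c : Fin (m + 1 + 1) → 𝓞 K := fun i => F.coeff i with hc
  have hfp : fp c = F := by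
    ext i
    rcases lt_or_ge i (m + 1 + 1) with h | h
    · have h3 := fp_coeff c ⟨i, h⟩
      rw [show ((⟨i, h⟩ : Fin (m + 1 + 1)) : ℕ) = i from rfl] at h3
      rw [h3]
    · rw [coeff_eq_zero_of_natDegree_lt (lt_of_le_of_lt (fp_natDegree c) (by omega)),
        coeff_eq_zero_of_natDegree_lt (by omega)]
  have hlast : c (Fin.last (m + 1)) = 1 := by
    show F.coeff (Fin.last (m + 1) : ℕ) = 1
    rw [Fin.val_last, ← hdeg]
    exact hF
  have hSz : Sz (C₀ * H) c := by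
    intro i τ
    rcases Fin.eq_castSucc_or_eq_last i with ⟨j, rfl⟩ | rfl
    · exact hsize H _ (hbox _ (by simpa using j.2)) τ
    · rw [hlast]
      have h3 : τ (((1 : 𝓞 K) : 𝓞 K) : K) = 1 := map_one (em τ)
      rw [h3, norm_one]
      nlinarith
  have hE : Ee c ≠ 0 := by
    have h3 : em σ (Ee c) ≠ 0 := by
      rw [Ee_map]
      have h4 : ((m + 1 : ℕ) : ℂ) * (fun i => em σ (c i)) (Fin.last (m + 1)) ≠ 0 := by
        show ((m + 1 : ℕ) : ℂ) * em σ (c (Fin.last (m + 1))) ≠ 0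
        rw [hlast, map_one, mul_one]
        exact Nat.cast_ne_zero.2 (Nat.succ_ne_zero m)
      rw [Ee_ne_iff (by omega) _ h4, ← fp_map, hfp]
      exact hσ
    intro h
    exact h3 (by rw [h, map_zero])
  have h3 := h2 H hH c hSz (by rw [hlast]; exact one_ne_zero) hE Z fun t ht => ?_
  · refine h3.trans ?_
    have e1 : 1 - 2 * η / (5 * g + 4 * η) / 2 = 1 - η / (5 * g + 4 * η) := by
      ring
    rw [e1]
    exact mul_le_mul_of_nonneg_right (le_max_right _ _) (by positivity)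
  · have htI : t ∈ Icc (-(H : ℤ)) H := mem_Icc.2 (abs_le.1 (hZ t ht).1)
    refine ⟨htI, ?_⟩
    by_contra hb1
    have hl2 : sh c (t : 𝓞 K) (Fin.last (m + 1)) = 1 := by
      rw [sh_last' (by omega), hlast]
    have hb2 : ¬ Bad2 (2 * η / (5 * g + 4 * η)) H (sh c (t : 𝓞 K)) := by
      rintro ⟨S, hS, hS2⟩
      rcases S.eq_empty_or_nonempty with h0 | ⟨p, hp⟩
      · rw [h0, prod_empty, Nat.cast_one] at hS2
        have := Real.one_le_rpow hHR hε0.le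
        linarith
      · obtain ⟨-, v, -, h5, -⟩ := hS p hp
        rw [hl2] at h5
        exact v.isPrime.ne_top ((Ideal.eq_top_iff_one _).2 h5)
    obtain ⟨h4, h5⟩ := h1 H hH (sh c (t : 𝓞 K)) (Sz_sh hSz htI)
      (by rw [hl2]; exact one_ne_zero) hb1 hb2
    rw [fp_sh, hfp] at h4 h5
    refine (hZ t ht).2 ⟨h4, fun e he => (h5 e he).trans ?_⟩
    have := le_max_left C₁ C₂
    linarith

end Pool.Agent.K4H5.HF
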