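import Pool.Agent.K4H5.HF.Loc
import Pool.Agent.K4H5.HF.Cnt

/-!
Counting in a pencil.
-/

set_option autoImplicit false
set_option linter.unusedSectionVars false

open NumberField IsDedekindDomain Polynomial Finset

namespace Pool.Agent.K4H5.HF

variable {K : Type} [Field K] [NumberField K] {N : ℕ}

/-- all conjugates of the coefficients are at most `M` -/
def Sz (M : ℝ) (c : Fin (N + 1) → 𝓞 K) : Prop := ∀ i, ∀ σ : K →+* ℂ, ‖σ (c i : K)‖ ≤ M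

theorem Nm_le {x : 𝓞 K} {M : ℝ} (h : ∀ σ : K →+* ℂ, ‖σ (x : K)‖ ≤ M) :
    (Nm x : ℝ) ≤ M ^ Module.finrank ℚ K := by
  rw [Nm_emb]
  refine (Finset.prod_le_prod (fun _ _ => norm_nonneg _) fun σ _ => h σ).trans ?_
  rw [Finset.prod_const, Finset.card_univ, Embeddings.card]

theorem em_inj (σ : K →+* ℂ) : Function.Injective (em σ) :=
  σ.injective.comp (FaithfulSMul.algebraMap_injective (𝓞 K) K)

theorem Dd_nm (K : Type) [Field K] [NumberField K] (N : ℕ) : ∃ (B : ℝ) (A : ℕ), 0 ≤ B ∧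
    ∀ (c : Fin (N + 1) → 𝓞 K) (M : ℝ), 1 ≤ M → Sz M c →
      (Nm (Dd c) : ℝ) ≤ (B * M ^ A) ^ Module.finrank ℚ K := by
  obtain ⟨B, A, hB, h⟩ := Dd_bound N
  refine ⟨B, A, hB, fun c M hM hc => Nm_le fun σ => ?_⟩
  have h1 : σ ((Dd c : 𝓞 K) : K) = Dd fun i => em σ (c i) := by
    rw [← Dd_map]
    rfl
  rw [h1]
  exact h _ M hM fun i => hc i σ

theorem Ee_nm (K : Type) [Field K] [NumberField K] (N : ℕ) : ∃ (B : ℝ) (A : ℕ), 0 ≤ B ∧
    ∀ (c : Fin (N + 1) → 𝓞 K) (M : ℝ), 1 ≤ M → Sz M c →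
      (Nm (Ee c) : ℝ) ≤ (B * M ^ A) ^ Module.finrank ℚ K := by
  obtain ⟨B, A, hB, h⟩ := Ee_bound N
  refine ⟨B, A, hB, fun c M hM hc => Nm_le fun σ => ?_⟩
  have h1 : σ ((Ee c : 𝓞 K) : K) = Ee fun i => em σ (c i) := by
    rw [← Ee_map]
    rfl
  rw [h1]
  exact h _ M hM fun i => hc i σ

theorem fib (hN : 2 ≤ N) (c : Fin (N + 1) → 𝓞 K) (hc : c (Fin.last N) ≠ 0) (w : ℕ)
    (Z : Finset ℤ) (hZ : ∀ t ∈ Z, Nm (Dd (sh c (t : 𝓞 K))) = w) :
    Z.card ≤ 2 * (Module.finrank ℚ K * (N - 1)) := by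
  classical
  have hcs : ∀ σ : K →+* ℂ, (N : ℂ) * em σ (c (Fin.last N)) ≠ 0 := fun σ => by
    refine mul_ne_zero (by exact_mod_cast (by omega : N ≠ 0)) ?_
    rw [Ne, map_eq_zero_iff _ (em_inj σ)]
    exact hc
  set P : ℂ[X] := ∏ σ : K →+* ℂ, DT (fun i => em σ (c i)) with hP
  have hdeg : P.natDegree = Module.finrank ℚ K * (N - 1) := by
    rw [hP, natDegree_prod _ _ fun σ _ => DT_ne hN _ (hcs σ),
      Finset.sum_congr rfl fun σ _ => DT_deg hN _ (hcs σ), Finset.sum_const, Finset.card_univ,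
      Embeddings.card, smul_eq_mul]
  have hpos : 0 < Module.finrank ℚ K * (N - 1) :=
    Nat.mul_pos Module.finrank_pos (by omega)
  have hev : ∀ t : ℤ, P.eval (t : ℂ) = ((Algebra.norm ℤ (Dd (sh c (t : 𝓞 K))) : ℤ) : ℂ) := by
    intro t
    have h2 : ((Algebra.norm ℤ (Dd (sh c (t : 𝓞 K))) : ℤ) : ℚ) =
        Algebra.norm ℚ ((Dd (sh c (t : 𝓞 K)) : 𝓞 K) : K) := Algebra.coe_norm_int _
    have h3 : ((Algebra.norm ℤ (Dd (sh c (t : 𝓞 K))) : ℤ) : ℂ) =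
        algebraMap ℚ ℂ (Algebra.norm ℚ ((Dd (sh c (t : 𝓞 K)) : 𝓞 K) : K)) := by
      rw [← h2]
      simp
    rw [h3, Algebra.norm_eq_prod_embeddings ℚ ℂ, hP, eval_prod]
    refine Fintype.prod_equiv (RingHom.equivRatAlgHom K ℂ) _ _ ?_
    intro σ
    rw [DT_eval]
    have h4 : sh (fun i => em σ (c i)) (t : ℂ) = fun i => em σ (sh c (t : 𝓞 K) i) := by
      rw [sh_map]
      simp
    rw [h4, ← Dd_map]
    rfl
  have hsub : ∀ s : ℂ, (P - C s).natDegree = Module.finrank ℚ K * (N - 1) := fun s => by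
    rw [natDegree_sub_C, hdeg]
  have hne : ∀ s : ℂ, P - C s ≠ 0 := fun s h => by
    have := hsub s
    rw [h, natDegree_zero] at this
    omega
  have hmem : Z.image (fun t : ℤ => (t : ℂ)) ⊆
      (P - C (w : ℂ)).roots.toFinset ∪ (P - C (-(w : ℂ))).roots.toFinset := by
    intro z hz
    rw [Finset.mem_image] at hz
    obtain ⟨t, ht, rfl⟩ := hz
    have h1 := hZ t ht
    unfold Nm at h1
    rw [Ideal.absNorm_span_singleton] at h1
    rw [Finset.mem_union, Multiset.mem_toFinset, Multiset.mem_toFinset, mem_roots (hne _),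
      mem_roots (hne _), IsRoot, IsRoot, eval_sub, eval_sub, eval_C, eval_C, hev]
    rcases Int.natAbs_eq (Algebra.norm ℤ (Dd (sh c (t : 𝓞 K)))) with h2 | h2
    · left
      rw [h2, h1]
      simp
    · right
      rw [h2, h1]
      simp
  have h1 := Finset.card_le_card hmem
  rw [Finset.card_image_of_injective _ Int.cast_injective] at h1
  refine h1.trans ((Finset.card_union_le _ _).trans ?_)
  have h2 : ∀ s : ℂ, (P - C s).roots.toFinset.card ≤ Module.finrank ℚ K * (N - 1) := fun s =>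
    (Multiset.toFinset_card_le _).trans ((card_roots' _).trans (hsub s).le)
  have h3 := h2 (w : ℂ)
  have h4 := h2 (-(w : ℂ))
  omega

theorem Sz_sh {C₀ : ℝ} {H : ℕ} {c : Fin (N + 1) → 𝓞 K} (hc : Sz (C₀ * H) c) {t : ℤ}
    (ht : t ∈ Icc (-(H : ℤ)) H) : Sz ((C₀ + 1) * H) (sh c (t : 𝓞 K)) := by
  intro i σ
  unfold sh
  rw [mem_Icc] at ht
  have h1 : |(t : ℝ)| ≤ H := abs_le.2 ⟨by exact_mod_cast ht.1, by exact_mod_cast ht.2⟩
  have h0 : (0 : ℝ) ≤ H := Nat.cast_nonneg _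
  split_ifs with hi
  · have h2 : (((c i + (t : 𝓞 K) : 𝓞 K)) : K) = (c i : K) + (t : K) := by
      have h3 := map_add (algebraMap (𝓞 K) K) (c i) (t : 𝓞 K)
      rw [map_intCast (algebraMap (𝓞 K) K) t] at h3
      exact h3
    rw [h2, map_add, map_intCast]
    refine (norm_add_le _ _).trans ?_
    rw [Complex.norm_intCast, add_mul, one_mul]
    exact add_le_add (hc i σ) h1
  · rw [add_zero]
    refine (hc i σ).trans ?_
    nlinarith

/-- few members of a pencil have a small radical -/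
theorem rad_count (K : Type) [Field K] [NumberField K] {N : ℕ} (hN : 2 ≤ N) (C₀ : ℝ)
    (hC₀ : 1 ≤ C₀) (ε : ℝ) (hε : 0 < ε) (hε1 : ε ≤ 1) : ∃ C : ℝ, 0 < C ∧ ∀ H : ℕ, 1 ≤ H →
    ∀ c : Fin (N + 1) → 𝓞 K, Sz (C₀ * H) c → c (Fin.last N) ≠ 0 → ∀ Z : Finset ℤ,
      (∀ t ∈ Z, t ∈ Icc (-(H : ℤ)) H ∧ (Dd (sh c (t : 𝓞 K)) = 0 ∨
        ((∏ p ∈ (Nm (Dd (sh c (t : 𝓞 K)))).primeFactors \
          (Nm (((2 * N : ℕ) : 𝓞 K) * c (Fin.last N))).primeFactors, p : ℕ) : ℝ) ≤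
            (H : ℝ) ^ (1 - ε))) → (Z.card : ℝ) ≤ C * (H : ℝ) ^ (1 - ε / 2) := by
  classical
  obtain ⟨B, A, hB, hb⟩ := Dd_nm K N
  set d := Module.finrank ℚ K with hd
  have hd0 : 0 < d := Module.finrank_pos
  set U : ℕ := ⌈(B * (C₀ + 1) ^ A) ^ d⌉₊ + ⌈(2 * N * C₀ : ℝ) ^ d⌉₊ + 1 with hU
  set E : ℕ := A * d + d with hE
  have hE0 : (0 : ℝ) < E := by
    have : 0 < E := by omega
    exact_mod_cast this
  set ε₁ : ℝ := ε / (2 * E) with hε₁
  have hε₁0 : 0 < ε₁ := by positivity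
  obtain ⟨D, hD, hr⟩ := count_rad hε₁0
  refine ⟨2 * (d * (N - 1 : ℕ)) * (1 + D * (U : ℝ) ^ ε₁) + 1, by positivity, ?_⟩
  intro H hH c hc hcl Z hZ
  have hHR : (1 : ℝ) ≤ H := by exact_mod_cast hH
  have hH0 : (0 : ℝ) < H := by linarith
  set m : ℕ := Nm (((2 * N : ℕ) : 𝓞 K) * c (Fin.last N)) with hm
  have hm0 : m ≠ 0 := by
    rw [hm]
    refine Nm_ne (mul_ne_zero ?_ hcl)
    exact_mod_cast (by omega : 2 * N ≠ 0)
  set X : ℕ := U * H ^ E with hX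
  have hUp : 1 ≤ U := by omega
  have hX1 : 1 ≤ X := Nat.mul_pos hUp (pow_pos (by omega) _)
  have hpowH : ∀ a : ℕ, a ≤ E → (H : ℝ) ^ a ≤ (H : ℝ) ^ E := fun a ha =>
    pow_le_pow_right₀ hHR ha
  have hmX : m ≤ X := by
    have h1 : (m : ℝ) ≤ (2 * N * C₀ * H) ^ d := by
      rw [hm, Nm_mul, Nm_nat]
      push_cast
      have h2 := Nm_le (x := c (Fin.last N)) fun σ => hc (Fin.last N) σ
      have h3 : (2 * (N : ℝ) * C₀ * H) ^ d = (2 * N) ^ d * (C₀ * H) ^ d := by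
        rw [← mul_pow]
        ring
      rw [h3]
      exact mul_le_mul_of_nonneg_left h2 (by positivity)
    have h2 : (m : ℝ) ≤ X := by
      refine h1.trans ?_
      rw [mul_pow, hX]
      push_cast
      refine mul_le_mul ?_ (hpowH d (by omega)) (by positivity) (by positivity)
      refine (Nat.le_ceil _).trans ?_
      rw [hU]
      push_cast
      have : (0 : ℝ) ≤ (⌈(B * (C₀ + 1) ^ A) ^ d⌉₊ : ℝ) := Nat.cast_nonneg _
      linarith
    exact_mod_cast h2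
  have hDX : ∀ t ∈ Icc (-(H : ℤ)) H, Nm (Dd (sh c (t : 𝓞 K))) ≤ X := by
    intro t ht
    have h1 := hb _ ((C₀ + 1) * H) (by nlinarith) (Sz_sh hc ht)
    have h2 : ((Nm (Dd (sh c (t : 𝓞 K))) : ℕ) : ℝ) ≤ X := by
      refine h1.trans ?_
      have h3 : (B * ((C₀ + 1) * H) ^ A) ^ d = (B * (C₀ + 1) ^ A) ^ d * (H : ℝ) ^ (A * d) := by
        rw [mul_pow ((C₀ + 1)) (H : ℝ), ← mul_assoc, mul_pow, ← pow_mul]
      rw [h3, hX]
      push_cast
      refine mul_le_mul ?_ (hpowH _ (by omega)) (by positivity) (by positivity)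
      refine (Nat.le_ceil _).trans ?_
      rw [hU]
      push_cast
      have : (0 : ℝ) ≤ (⌈(2 * N * C₀ : ℝ) ^ d⌉₊ : ℝ) := Nat.cast_nonneg _
      linarith
    exact_mod_cast h2
  set R : ℝ := (H : ℝ) ^ (1 - ε) with hR
  have hR0 : 0 ≤ R := by positivity
  set W := (Icc 1 X).filter fun w : ℕ =>
    ((∏ p ∈ w.primeFactors \ m.primeFactors, p : ℕ) : ℝ) ≤ R with hW
  have hWc := hr X m hX1 (Nat.one_le_iff_ne_zero.2 hm0) hmX R hR0
  have hmaps : ∀ t ∈ Z, Nm (Dd (sh c (t : 𝓞 K))) ∈ insert 0 W := by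
    intro t ht
    obtain ⟨h1, h2⟩ := hZ t ht
    rw [mem_insert]
    by_cases h0 : Dd (sh c (t : 𝓞 K)) = 0
    · left
      rw [h0]
      unfold Nm
      simp
    · right
      rcases h2 with h2 | h2
      · exact absurd h2 h0
      · rw [hW, mem_filter, mem_Icc]
        exact ⟨⟨Nat.one_le_iff_ne_zero.2 (Nm_ne h0), hDX t h1⟩, h2⟩
  have hcard := Finset.card_le_mul_card_image_of_maps_to hmaps (2 * (d * (N - 1)))
    (fun w _ => fib hN c hcl w _ fun t ht => (mem_filter.1 ht).2)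
  have h3 : (Z.card : ℝ) ≤ 2 * (d * (N - 1 : ℕ)) * (1 + W.card) := by
    have h4 : (insert 0 W).card ≤ 1 + W.card := by
      rw [add_comm]
      exact Finset.card_insert_le _ _
    have h5 := hcard.trans (Nat.mul_le_mul_left (2 * (d * (N - 1))) h4)
    exact_mod_cast h5
  refine h3.trans ?_
  have hXε : (X : ℝ) ^ ε₁ = (U : ℝ) ^ ε₁ * (H : ℝ) ^ (ε / 2) := by
    rw [hX]
    push_cast
    rw [Real.mul_rpow (by positivity) (by positivity), ← Real.rpow_natCast, ← Real.rpow_mul hH0.le]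
    congr 2
    rw [hε₁]
    field_simp
  have h6 : (W.card : ℝ) ≤ D * (U : ℝ) ^ ε₁ * (H : ℝ) ^ (1 - ε / 2) := by
    refine hWc.trans (le_of_eq ?_)
    rw [hXε, hR]
    have h7 : (H : ℝ) ^ (1 - ε / 2) = (H : ℝ) ^ (ε / 2) * (H : ℝ) ^ (1 - ε) := by
      rw [← Real.rpow_add hH0]
      congr 1
      ring
    rw [h7]
    ring
  have h8 : (1 : ℝ) ≤ (H : ℝ) ^ (1 - ε / 2) := Real.one_le_rpow hHR (by linarith)
  have h9 : (0 : ℝ) ≤ 2 * (d * (N - 1 : ℕ)) := by positivity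
  have h10 : (1 : ℝ) + W.card ≤ (1 + D * (U : ℝ) ^ ε₁) * (H : ℝ) ^ (1 - ε / 2) := by
    rw [add_mul, one_mul]
    linarith
  calc 2 * (d * (N - 1 : ℕ)) * (1 + (W.card : ℝ))
      ≤ 2 * (d * (N - 1 : ℕ)) * ((1 + D * (U : ℝ) ^ ε₁) * (H : ℝ) ^ (1 - ε / 2)) :=
        mul_le_mul_of_nonneg_left h10 h9
    _ ≤ (2 * (d * (N - 1 : ℕ)) * (1 + D * (U : ℝ) ^ ε₁) + 1) * (H : ℝ) ^ (1 - ε / 2) := by
        nlinarith

/-- few integers lie in bad classes modulo many primes dividing `n` -/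
theorem cls_count (k : ℕ) (C₁ : ℝ) (A : ℕ) (ε : ℝ) (hε : 0 < ε) (hε1 : ε ≤ 1) :
    ∃ C : ℝ, 0 < C ∧ ∀ H : ℕ, 1 ≤ H → ∀ n : ℕ, n ≠ 0 → (n : ℝ) ≤ C₁ * (H : ℝ) ^ A →
      ∀ P : ℤ → ℕ → Prop, (∀ t p, P t p → p.Prime ∧ p ∣ n) →
      (∀ p : ℕ, p.Prime → ∃ Z : Finset ℤ, Z.card ≤ k ∧ ∀ t, P t p →
        ∃ s ∈ Z, (p : ℤ) ∣ t - s) → ∀ Z : Finset ℤ,
      (∀ t ∈ Z, t ∈ Icc (-(H : ℤ)) H ∧ ∃ S : Finset ℕ, (∀ p ∈ S, P t p) ∧
        (H : ℝ) ^ ε < ((∏ p ∈ S, p : ℕ) : ℝ)) → (Z.card : ℝ) ≤ C * (H : ℝ) ^ (1 - ε / 2) := by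
  classical
  set ε₁ : ℝ := ε / (2 * (A + 1)) with hε₁
  have hε₁0 : 0 < ε₁ := by positivity
  obtain ⟨D, hD, hA1⟩ := Pool.Agent.H785R2.ABC.stmtA1 (2 * (k + 1 : ℕ)) (by push_cast; linarith [Nat.cast_nonneg (α := ℝ) k])
    ε₁ hε₁0
  set C₂ : ℝ := max C₁ 1 with hC₂
  have hC₂1 : 1 ≤ C₂ := le_max_right _ _
  refine ⟨4 * D * C₂ ^ ε₁, by positivity, ?_⟩
  intro H hH n hn hnH P hP1 hP2 Z hZ
  have hHR : (1 : ℝ) ≤ H := by exact_mod_cast hH
  have hH0 : (0 : ℝ) < H := by linarith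
  choose! Zr hZr1 hZr2 using hP2
  have h1 := count_div (k + 1) (by omega) Zr H (by positivity) n hn ((H : ℝ) ^ ε) (by positivity)
    (fun p hp => (hZr1 p (Nat.prime_of_mem_primeFactors hp)).trans (by omega)) Z ?_
  · refine h1.trans ?_
    have h2 := hA1 n (Nat.one_le_iff_ne_zero.2 hn)
    have h3 : (n : ℝ) ^ ε₁ ≤ C₂ ^ ε₁ * (H : ℝ) ^ (ε / 2) := by
      have h4 : (n : ℝ) ≤ C₂ * (H : ℝ) ^ (A + 1) := by
        refine hnH.trans (mul_le_mul (le_max_left _ _) (pow_le_pow_right₀ hHR (by omega))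
          (by positivity) (by positivity))
      refine (Real.rpow_le_rpow (Nat.cast_nonneg _) h4 hε₁0.le).trans (le_of_eq ?_)
      rw [Real.mul_rpow (by positivity) (by positivity), ← Real.rpow_natCast,
        ← Real.rpow_mul hH0.le]
      congr 2
      rw [hε₁]
      push_cast
      field_simp
    have h5 : (2 * (H : ℤ) + 1 : ℝ) / (H : ℝ) ^ ε + 1 ≤ 4 * (H : ℝ) ^ (1 - ε) := by
      have h6 : (H : ℝ) ^ (1 - ε) = H / (H : ℝ) ^ ε := by
        rw [Real.rpow_sub hH0, Real.rpow_one]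
      have h7 : (1 : ℝ) ≤ (H : ℝ) ^ (1 - ε) := Real.one_le_rpow hHR (by linarith)
      have h8 : (2 * (H : ℤ) + 1 : ℝ) / (H : ℝ) ^ ε ≤ 3 * (H : ℝ) ^ (1 - ε) := by
        rw [h6, ← mul_div_assoc]
        refine div_le_div_of_nonneg_right ?_ (by positivity)
        push_cast
        linarith
      linarith
    have h9 : (H : ℝ) ^ (1 - ε / 2) = (H : ℝ) ^ (ε / 2) * (H : ℝ) ^ (1 - ε) := by
      rw [← Real.rpow_add hH0]
      congr 1
      ring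
    calc (2 * ((k + 1 : ℕ) : ℝ)) ^ n.primeFactors.card * ((2 * ((H : ℤ) : ℝ) + 1) / (H : ℝ) ^ ε + 1)
        ≤ (D * (C₂ ^ ε₁ * (H : ℝ) ^ (ε / 2))) * (4 * (H : ℝ) ^ (1 - ε)) := by
          refine mul_le_mul (h2.trans (mul_le_mul_of_nonneg_left h3 hD.le)) ?_ (by positivity)
            (by positivity)
          exact_mod_cast h5
      _ = 4 * D * C₂ ^ ε₁ * (H : ℝ) ^ (1 - ε / 2) := by
          rw [h9]
          ring
  · intro t ht
    obtain ⟨h2, S, hS1, hS2⟩ := hZ t ht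
    rw [mem_Icc] at h2
    have hpr : ∀ p ∈ S, p.Prime := fun p hp => (hP1 t p (hS1 p hp)).1
    have hpf : (∏ p ∈ S, p).primeFactors = S := Nat.primeFactors_prod hpr
    refine ⟨abs_le.2 h2, ∏ p ∈ S, p, ?_, ?_, hS2, ?_⟩
    · refine Finset.squarefree_prod_of_pairwise_isCoprime (fun p hp q hq hpq => ?_)
        fun p hp => (hpr p hp).squarefree
      exact Nat.coprime_iff_isRelPrime.1 ((Nat.coprime_primes (hpr p hp) (hpr q hq)).2 hpq)
    · exact Finset.prod_primes_dvd _ (fun p hp => (hpr p hp).prime)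
        fun p hp => (hP1 t p (hS1 p hp)).2
    · intro p hp
      rw [hpf] at hp
      exact hZr2 p (hpr p hp) t (hS1 p hp)

end Pool.Agent.K4H5.HF
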