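import Pool.Agent.K4H5.HF.Def
import Mathlib.RingTheory.Polynomial.Resultant.Basic
import Mathlib.FieldTheory.IsAlgClosed.Basic
import Mathlib.Algebra.Polynomial.FieldDivision

/-!
Resultants of a polynomial and its derivative, in a pencil.
-/

set_option autoImplicit false
set_option linter.unusedSectionVars false

open Polynomial

namespace Pool.Agent.K4H5.HF

section ring

variable {R S : Type} [CommRing R] [CommRing S] {N : ℕ}

/-- the polynomial with given coefficients -/
noncomputable def fp (c : Fin (N + 1) → R) : R[X] := ∑ i : Fin (N + 1), C (c i) * X ^ (i : ℕ)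

theorem fp_coeff (c : Fin (N + 1) → R) (i : Fin (N + 1)) : (fp c).coeff i = c i := by
  unfold fp
  rw [finsetSum_coeff]
  simp only [coeff_C_mul, coeff_X_pow]
  rw [Finset.sum_eq_single i]
  · simp
  · intro j _ hj
    rw [if_neg (fun h => hj (Fin.ext h.symm)), mul_zero]
  · intro h
    exact absurd (Finset.mem_univ i) h

theorem fp_natDegree (c : Fin (N + 1) → R) : (fp c).natDegree ≤ N := by
  unfold fp
  refine natDegree_sum_le_of_forall_le _ _ fun i _ => ?_
  refine (natDegree_C_mul_X_pow_le _ _).trans ?_
  exact Nat.lt_succ_iff.1 i.2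

theorem fp_map (φ : R →+* S) (c : Fin (N + 1) → R) : (fp c).map φ = fp fun i => φ (c i) := by
  unfold fp
  rw [Polynomial.map_sum]
  simp

theorem fp_eval (c : Fin (N + 1) → R) (x : R) : (fp c).eval x = ∑ i : Fin (N + 1), c i * x ^ (i : ℕ) := by
  unfold fp
  rw [eval_finsetSum]
  simp

/-- the shift of the constant coefficient -/
def sh (c : Fin (N + 1) → R) (t : R) : Fin (N + 1) → R := fun i => c i + if i = 0 then t else 0

theorem fp_sh (c : Fin (N + 1) → R) (t : R) : fp (sh c t) = fp c + C t := by
  unfold fp sh
  simp only [C_add, add_mul, Finset.sum_add_distrib]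
  congr 1
  rw [Finset.sum_eq_single 0]
  · simp
  · intro j _ hj
    rw [if_neg hj]
    simp
  · intro h
    exact absurd (Finset.mem_univ _) h

theorem sh_map (φ : R →+* S) (c : Fin (N + 1) → R) (t : R) :
    (fun i => φ (sh c t i)) = sh (fun i => φ (c i)) (φ t) := by
  funext i
  unfold sh
  split_ifs <;> simp

/-- the discriminant up to a factor -/
noncomputable def Dd (c : Fin (N + 1) → R) : R :=
  resultant (derivative (fp c)) (fp c) (N - 1) N

/-- the discriminant in the pencil -/
noncomputable def DT (c : Fin (N + 1) → R) : R[X] :=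
  resultant ((derivative (fp c)).map C) ((fp c).map C + C X) (N - 1) N

/-- the discriminant of the discriminant -/
noncomputable def Ee (c : Fin (N + 1) → R) : R :=
  resultant (DT c) (derivative (DT c)) (N - 1) (N - 2)

theorem Dd_map (φ : R →+* S) (c : Fin (N + 1) → R) : φ (Dd c) = Dd fun i => φ (c i) := by
  unfold Dd
  rw [← resultant_map_map, ← derivative_map, fp_map]

theorem DT_map (φ : R →+* S) (c : Fin (N + 1) → R) : (DT c).map φ = DT fun i => φ (c i) := by
  unfold DT
  rw [← coe_mapRingHom, ← resultant_map_map]
  congr 1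
  · rw [Polynomial.map_map, ← fp_map, derivative_map, Polynomial.map_map]
    congr 1
    ext x; simp
  · rw [Polynomial.map_add, Polynomial.map_map, ← fp_map, Polynomial.map_map, map_C]
    congr 1
    · congr 1
      ext x; simp
    · simp

theorem Ee_map (φ : R →+* S) (c : Fin (N + 1) → R) : φ (Ee c) = Ee fun i => φ (c i) := by
  unfold Ee
  rw [← resultant_map_map, ← derivative_map, DT_map]

theorem DT_eval (c : Fin (N + 1) → R) (t : R) : (DT c).eval t = Dd (sh c t) := by
  unfold DT Dd
  rw [← coe_evalRingHom, ← resultant_map_map]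
  congr 1
  · rw [Polynomial.map_map, fp_sh, derivative_add, derivative_C, add_zero]
    have : (evalRingHom t).comp (C : R →+* R[X]) = RingHom.id R := by ext x; simp
    rw [this, Polynomial.map_id]
  · rw [Polynomial.map_add, Polynomial.map_map, fp_sh, map_C]
    have : (evalRingHom t).comp (C : R →+* R[X]) = RingHom.id R := by ext x; simp
    rw [this, Polynomial.map_id]
    simp

end ring

section field

variable {L : Type} [Field L] [IsAlgClosed L] {N : ℕ} (hN : 2 ≤ N) (c : Fin (N + 1) → L)
  (hc : (N : L) * c (Fin.last N) ≠ 0)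

include hc in
theorem fp_deg : (fp c).natDegree = N := by
  refine le_antisymm (fp_natDegree c) (le_natDegree_of_ne_zero ?_)
  have h := fp_coeff c (Fin.last N)
  rw [Fin.val_last] at h
  rw [h]
  exact right_ne_zero_of_mul hc

include hc in
theorem fp_ne : fp c ≠ 0 := by
  intro h
  have h1 := fp_coeff c (Fin.last N)
  rw [h, coeff_zero] at h1
  exact right_ne_zero_of_mul hc h1.symm

include hN hc in
theorem der_coeff : (derivative (fp c)).coeff (N - 1) = (N : L) * c (Fin.last N) := by
  rw [coeff_derivative]
  have h1 : N - 1 + 1 = N := by omega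
  have h := fp_coeff c (Fin.last N)
  rw [Fin.val_last] at h
  rw [h1, h]
  have h2 : ((N - 1 : ℕ) : L) + 1 = (N : L) := by
    have : ((N - 1 + 1 : ℕ) : L) = (N : L) := by rw [h1]
    push_cast at this
    exact this
  rw [h2, mul_comm]

include hN hc in
theorem der_deg : (derivative (fp c)).natDegree = N - 1 := by
  refine le_antisymm ?_ (le_natDegree_of_ne_zero (by rw [der_coeff hN c hc]; exact hc))
  have h1 := natDegree_derivative_le (fp c)
  rw [fp_deg c hc] at h1
  exact h1

include hN hc in
theorem der_lead : (derivative (fp c)).leadingCoeff = (N : L) * c (Fin.last N) := by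
  rw [leadingCoeff, der_deg hN c hc, der_coeff hN c hc]

include hN hc in
theorem der_card : Multiset.card (derivative (fp c)).roots = N - 1 := by
  rw [← der_deg hN c hc]
  exact (IsAlgClosed.splits _).natDegree_eq_card_roots.symm

include hN hc in
theorem der_ne : derivative (fp c) ≠ 0 := by
  intro h
  have h1 := der_coeff hN c hc
  rw [h, coeff_zero] at h1
  exact hc h1.symm

include hN hc in
theorem Dd_eq : Dd c = ((N : L) * c (Fin.last N)) ^ N *
    ((derivative (fp c)).roots.map (fp c).eval).prod := by
  unfold Dd
  have h := resultant_eq_prod_eval (derivative (fp c)) (fp c) N (fp_natDegree c)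
    (IsAlgClosed.splits _)
  rw [der_deg hN c hc, der_lead hN c hc] at h
  exact h

theorem sh_last (hN : 2 ≤ N) (c : Fin (N + 1) → L) (t : L) :
    sh c t (Fin.last N) = c (Fin.last N) := by
  unfold sh
  rw [if_neg, add_zero]
  intro h
  have := congrArg Fin.val h
  rw [Fin.val_last] at this
  simp at this
  omega

include hN hc in
theorem DT_eq : DT c = C (((N : L) * c (Fin.last N)) ^ N) *
    ((derivative (fp c)).roots.map fun b => X + C ((fp c).eval b)).prod := by
  apply Polynomial.funext
  intro t
  rw [DT_eval, Dd_eq hN (sh c t) (by rw [sh_last hN]; exact hc), sh_last hN, eval_mul, eval_C,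
    eval_multiset_prod, Multiset.map_map, fp_sh, derivative_add, derivative_C, add_zero]
  congr 2
  refine Multiset.map_congr rfl fun b _ => ?_
  simp [add_comm]

include hN hc in
theorem DT_deg : (DT c).natDegree = N - 1 := by
  rw [DT_eq hN c hc, natDegree_C_mul (pow_ne_zero _ hc), natDegree_multiset_prod_of_monic]
  · rw [Multiset.map_map]
    have : (derivative (fp c)).roots.map (natDegree ∘ fun b => X + C ((fp c).eval b)) =
        (derivative (fp c)).roots.map fun _ => 1 := by
      refine Multiset.map_congr rfl fun b _ => ?_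
      simp
    rw [this, Multiset.map_const', Multiset.sum_replicate, der_card hN c hc, smul_eq_mul, mul_one]
  · intro p hp
    rw [Multiset.mem_map] at hp
    obtain ⟨b, -, rfl⟩ := hp
    exact monic_X_add_C _

include hN hc in
theorem DT_ne : DT c ≠ 0 := by
  rw [DT_eq hN c hc]
  refine mul_ne_zero (C_ne_zero.2 (pow_ne_zero _ hc)) ?_
  refine (monic_multiset_prod_of_monic _ _ fun b _ => monic_X_add_C _).ne_zero

include hN hc in
theorem DT_roots : (DT c).roots = (derivative (fp c)).roots.map fun b => -(fp c).eval b := by
  rw [DT_eq hN c hc, roots_C_mul _ (pow_ne_zero _ hc)]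
  have : ((derivative (fp c)).roots.map fun b => X + C ((fp c).eval b)) =
      ((derivative (fp c)).roots.map fun b => -(fp c).eval b).map fun a => X - C a := by
    rw [Multiset.map_map]
    refine Multiset.map_congr rfl fun b _ => ?_
    simp
  rw [this, roots_multiset_prod_X_sub_C]

include hN hc in
theorem Ee_ne_iff : Ee c ≠ 0 ↔ ((derivative (fp c)).roots.map (fp c).eval).Nodup := by
  classical
  have h0 := DT_ne hN c hc
  have h1 : (derivative (DT c)).natDegree ≤ N - 2 := by
    have := natDegree_derivative_le (DT c)
    rw [DT_deg hN c hc] at this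
    omega
  have h2 := resultant_eq_prod_eval (DT c) (derivative (DT c)) (N - 2) h1 (IsAlgClosed.splits _)
  rw [DT_deg hN c hc] at h2
  have h3 : Ee c = (DT c).leadingCoeff ^ (N - 2) *
      ((DT c).roots.map (derivative (DT c)).eval).prod := h2
  have h4 : Ee c ≠ 0 ↔ (DT c).roots.Nodup := by
    rw [h3, mul_ne_zero_iff, and_iff_right (pow_ne_zero _ (leadingCoeff_ne_zero.2 h0)), Ne,
      Multiset.prod_eq_zero_iff, Multiset.mem_map]
    constructor
    · intro h
      rw [Multiset.nodup_iff_count_le_one]
      intro y
      rw [count_roots]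
      by_contra hcon
      push Not at hcon
      have h5 : 1 < (DT c).rootMultiplicity y := hcon
      rw [one_lt_rootMultiplicity_iff_isRoot h0] at h5
      exact h ⟨y, (mem_roots h0).2 h5.1, h5.2⟩
    · rintro h ⟨y, hy, h5⟩
      have h6 := (Multiset.nodup_iff_count_le_one.1 h) y
      rw [count_roots] at h6
      have h7 : 1 < (DT c).rootMultiplicity y :=
        (one_lt_rootMultiplicity_iff_isRoot h0).2 ⟨(mem_roots h0).1 hy, h5⟩
      omega
  rw [h4, DT_roots hN c hc]
  have h5 : ((derivative (fp c)).roots.map fun b => -(fp c).eval b) =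
      ((derivative (fp c)).roots.map (fp c).eval).map fun x => -x := by
    rw [Multiset.map_map]
    rfl
  rw [h5]
  exact Multiset.nodup_map_iff_of_injective neg_injective

include hN hc in
theorem nr_le : nr (fp c) ≤ N := by
  classical
  unfold nr
  refine (Multiset.toFinset_card_le _).trans ((card_roots' _).trans ?_)
  rw [fp_deg c hc]

include hN hc in
theorem nr_eq_iff : nr (fp c) = N ↔ Dd c ≠ 0 := by
  classical
  have h0 := fp_ne c hc
  have hcard : Multiset.card (fp c).roots = N := by
    conv_rhs => rw [← fp_deg c hc]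
    exact (IsAlgClosed.splits _).natDegree_eq_card_roots.symm
  have h1 : nr (fp c) = N ↔ (fp c).roots.Nodup := by
    unfold nr
    constructor
    · intro h
      exact Multiset.toFinset_card_eq_card_iff_nodup.1 (h.trans hcard.symm)
    · intro h
      exact (Multiset.toFinset_card_eq_card_iff_nodup.2 h).trans hcard
  rw [h1, Dd_eq hN c hc, mul_ne_zero_iff, and_iff_right (pow_ne_zero _ hc), Ne,
    Multiset.prod_eq_zero_iff, Multiset.mem_map]
  constructor
  · rintro h ⟨b, hb, hb0⟩
    have h2 := (Multiset.nodup_iff_count_le_one.1 h) b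
    rw [count_roots] at h2
    have h3 : 1 < (fp c).rootMultiplicity b :=
      (one_lt_rootMultiplicity_iff_isRoot h0).2 ⟨hb0, (mem_roots (der_ne hN c hc)).1 hb⟩
    omega
  · intro h
    rw [Multiset.nodup_iff_count_le_one]
    intro y
    rw [count_roots]
    by_contra hcon
    push Not at hcon
    have h5 : 1 < (fp c).rootMultiplicity y := hcon
    rw [one_lt_rootMultiplicity_iff_isRoot h0] at h5
    exact h ⟨y, (mem_roots (der_ne hN c hc)).2 h5.2, h5.1⟩

include hN hc in
theorem nr_ge (hE : Ee c ≠ 0) : N - 1 ≤ nr (fp c) := by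
  classical
  have h0 := fp_ne c hc
  have hd0 := der_ne hN c hc
  have hcard : Multiset.card (fp c).roots = N := by
    conv_rhs => rw [← fp_deg c hc]
    exact (IsAlgClosed.splits _).natDegree_eq_card_roots.symm
  have hnd := (Ee_ne_iff hN c hc).1 hE
  have hnd2 : (derivative (fp c)).roots.Nodup := Multiset.Nodup.of_map _ hnd
  -- multiplicities
  have hm : ∀ y, (fp c).rootMultiplicity y ≤ 2 := by
    intro y
    have h1 := rootMultiplicity_sub_one_le_derivative_rootMultiplicity_of_ne_zero (fp c) y hd0
    have h2 := (Multiset.nodup_iff_count_le_one.1 hnd2) y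
    rw [count_roots] at h2
    omega
  -- at most one multiple root
  have huniq : ∀ y z, 1 < (fp c).rootMultiplicity y → 1 < (fp c).rootMultiplicity z → y = z := by
    intro y z hy hz
    rw [one_lt_rootMultiplicity_iff_isRoot h0] at hy hz
    have hy' := (mem_roots hd0).2 hy.2
    have hz' := (mem_roots hd0).2 hz.2
    exact Multiset.inj_on_of_nodup_map hnd y hy' z hz' (by rw [hy.1, hz.1])
  have hsum : ∑ y ∈ (fp c).roots.toFinset, (fp c).roots.count y = N := by
    rw [Multiset.toFinset_sum_count_eq, hcard]
  unfold nr
  by_cases hex : ∃ z ∈ (fp c).roots.toFinset, 1 < (fp c).rootMultiplicity z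
  · obtain ⟨z, hz, hz2⟩ := hex
    have h1 : ∑ y ∈ (fp c).roots.toFinset, (fp c).roots.count y ≤
        ∑ y ∈ (fp c).roots.toFinset, (if y = z then 2 else 1) := by
      refine Finset.sum_le_sum fun y _ => ?_
      rw [count_roots]
      split_ifs with h
      · exact hm y
      · by_contra hcon
        push Not at hcon
        exact h (huniq y z hcon hz2)
    have h2 : ∑ y ∈ (fp c).roots.toFinset, (if y = z then 2 else 1) =
        (fp c).roots.toFinset.card + 1 := by
      have : ∀ y, (if y = z then 2 else 1) = 1 + (if y = z then 1 else 0) := by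
        intro y
        split_ifs <;> rfl
      simp only [this, Finset.sum_add_distrib]
      rw [Finset.sum_const, smul_eq_mul, mul_one, Finset.sum_ite_eq', if_pos hz]
    omega
  · push Not at hex
    have h1 : ∑ y ∈ (fp c).roots.toFinset, (fp c).roots.count y ≤
        ∑ y ∈ (fp c).roots.toFinset, 1 := by
      refine Finset.sum_le_sum fun y hy => ?_
      rw [count_roots]
      exact hex y hy
    rw [Finset.sum_const, smul_eq_mul, mul_one] at h1
    omega

end field

end Pool.Agent.K4H5.HF
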