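import Pool.Agent.K4H5.HF.Res
import Mathlib.Algebra.MvPolynomial.SchwartzZippel
import Mathlib.Analysis.Complex.Polynomial.Basic

/-!
The discriminants are polynomials in the coefficients: bounds and zeros.
-/

set_option autoImplicit false
set_option linter.unusedSectionVars false

open Polynomial

namespace Pool.Agent.K4H5.HF

section bound

theorem mv_bound {ι : Type} (P : MvPolynomial ι ℤ) : ∃ (B : ℝ) (A : ℕ), 0 ≤ B ∧
    ∀ (x : ι → ℂ) (M : ℝ), 1 ≤ M → (∀ i, ‖x i‖ ≤ M) →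
      ‖MvPolynomial.eval₂Hom (Int.castRingHom ℂ) x P‖ ≤ B * M ^ A := by
  induction P using MvPolynomial.induction_on with
  | C a =>
    refine ⟨|(a : ℝ)|, 0, abs_nonneg _, fun x M _ _ => ?_⟩
    rw [MvPolynomial.coe_eval₂Hom, MvPolynomial.eval₂_C, pow_zero, mul_one]
    simp
  | add p q hp hq =>
    obtain ⟨B₁, A₁, hB₁, h1⟩ := hp
    obtain ⟨B₂, A₂, hB₂, h2⟩ := hq
    refine ⟨B₁ + B₂, A₁ + A₂, by positivity, fun x M hM hx => ?_⟩
    rw [map_add]
    refine (norm_add_le _ _).trans ((add_le_add (h1 x M hM hx) (h2 x M hM hx)).trans ?_)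
    have e1 : M ^ A₁ ≤ M ^ (A₁ + A₂) := pow_le_pow_right₀ hM (by omega)
    have e2 : M ^ A₂ ≤ M ^ (A₁ + A₂) := pow_le_pow_right₀ hM (by omega)
    nlinarith [mul_le_mul_of_nonneg_left e1 hB₁, mul_le_mul_of_nonneg_left e2 hB₂]
  | mul_X p i hp =>
    obtain ⟨B, A, hB, h⟩ := hp
    refine ⟨B, A + 1, hB, fun x M hM hx => ?_⟩
    rw [map_mul, norm_mul, pow_succ, ← mul_assoc, MvPolynomial.coe_eval₂Hom, MvPolynomial.eval₂_X]
    have h0 : (0 : ℝ) ≤ M := by linarith
    exact mul_le_mul (h x M hM hx) (hx i) (norm_nonneg _) (by positivity)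

variable {N : ℕ} {R : Type} [CommRing R]

theorem Dd_univ (c : Fin (N + 1) → R) : Dd c = MvPolynomial.eval₂Hom (Int.castRingHom R) c
    (Dd (fun i : Fin (N + 1) => (MvPolynomial.X i : MvPolynomial (Fin (N + 1)) ℤ))) := by
  rw [Dd_map]
  congr 1
  funext i
  simp

theorem Ee_univ (c : Fin (N + 1) → R) : Ee c = MvPolynomial.eval₂Hom (Int.castRingHom R) c
    (Ee (fun i : Fin (N + 1) => (MvPolynomial.X i : MvPolynomial (Fin (N + 1)) ℤ))) := by
  rw [Ee_map]
  congr 1
  funext i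
  simp

theorem Dd_bound (N : ℕ) : ∃ (B : ℝ) (A : ℕ), 0 ≤ B ∧
    ∀ (c : Fin (N + 1) → ℂ) (M : ℝ), 1 ≤ M → (∀ i, ‖c i‖ ≤ M) → ‖Dd c‖ ≤ B * M ^ A := by
  obtain ⟨B, A, hB, h⟩ := mv_bound (Dd (fun i : Fin (N + 1) =>
    (MvPolynomial.X i : MvPolynomial (Fin (N + 1)) ℤ)))
  refine ⟨B, A, hB, fun c M hM hc => ?_⟩
  rw [Dd_univ]
  exact h c M hM hc

theorem Ee_bound (N : ℕ) : ∃ (B : ℝ) (A : ℕ), 0 ≤ B ∧
    ∀ (c : Fin (N + 1) → ℂ) (M : ℝ), 1 ≤ M → (∀ i, ‖c i‖ ≤ M) → ‖Ee c‖ ≤ B * M ^ A := by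
  obtain ⟨B, A, hB, h⟩ := mv_bound (Ee (fun i : Fin (N + 1) =>
    (MvPolynomial.X i : MvPolynomial (Fin (N + 1)) ℤ)))
  refine ⟨B, A, hB, fun c M hM hc => ?_⟩
  rw [Ee_univ]
  exact h c M hM hc

end bound

section nonzero

/-- the coefficients of `X ^ N + X` -/
def cst (N : ℕ) : Fin (N + 1) → ℂ := fun i => if (i : ℕ) = N ∨ (i : ℕ) = 1 then 1 else 0

theorem fp_cst {N : ℕ} (hN : 2 ≤ N) : fp (cst N) = X ^ N + X := by
  ext m
  rcases le_or_gt m N with h | h
  · have h1 := fp_coeff (cst N) ⟨m, by omega⟩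
    rw [show ((⟨m, by omega⟩ : Fin (N + 1)) : ℕ) = m from rfl] at h1
    rw [h1]
    unfold cst
    rw [coeff_add, coeff_X_pow, coeff_X]
    by_cases h2 : m = N
    · rw [if_pos (Or.inl h2), if_pos h2, if_neg (by omega), add_zero]
    · by_cases h3 : m = 1
      · rw [if_pos (Or.inr h3), if_neg h2, if_pos h3.symm, zero_add]
      · rw [if_neg (by rintro (h4 | h4); exacts [h2 h4, h3 h4]), if_neg h2,
          if_neg (fun h4 => h3 h4.symm), add_zero]
  · rw [coeff_eq_zero_of_natDegree_lt (lt_of_le_of_lt (fp_natDegree _) h), coeff_add, coeff_X_pow,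
      coeff_X, if_neg (by omega), if_neg (by omega), add_zero]

theorem Ee_cst {N : ℕ} (hN : 2 ≤ N) : Ee (cst N) ≠ 0 := by
  classical
  have hN0 : (N : ℂ) ≠ 0 := by exact_mod_cast (by omega : N ≠ 0)
  have hlast : cst N (Fin.last N) = 1 := by
    unfold cst
    rw [if_pos (Or.inl (Fin.val_last N))]
  have hc : (N : ℂ) * cst N (Fin.last N) ≠ 0 := by
    rw [hlast, mul_one]
    exact hN0
  rw [Ee_ne_iff hN _ hc]
  have hder : derivative (fp (cst N)) = C (N : ℂ) * X ^ (N - 1) + 1 := by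
    rw [fp_cst hN, derivative_add, derivative_X_pow, derivative_X]
  have hd0 := der_ne hN _ hc
  have hroot : ∀ b ∈ (derivative (fp (cst N))).roots, b ^ (N - 1) = -(N : ℂ)⁻¹ := by
    intro b hb
    have h1 := (mem_roots hd0).1 hb
    rw [IsRoot, hder] at h1
    simp only [eval_add, eval_mul, eval_C, eval_pow, eval_X, eval_one] at h1
    field_simp
    linear_combination h1
  have hval : ∀ b ∈ (derivative (fp (cst N))).roots,
      (fp (cst N)).eval b = (1 - (N : ℂ)⁻¹) * b := by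
    intro b hb
    have h1 := hroot b hb
    rw [fp_cst hN]
    simp only [eval_add, eval_pow, eval_X]
    have h2 : b ^ N = b ^ (N - 1) * b := by
      rw [← pow_succ]
      congr 1
      omega
    rw [h2, h1]
    ring
  have hne : (1 - (N : ℂ)⁻¹) ≠ 0 := by
    intro h
    have h1 : (N : ℂ) = 1 := by
      field_simp at h
      linear_combination h
    have : N = 1 := by exact_mod_cast h1
    omega
  have h3 : ((derivative (fp (cst N))).roots.map (fp (cst N)).eval) =
      (derivative (fp (cst N))).roots.map fun b => (1 - (N : ℂ)⁻¹) * b :=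
    Multiset.map_congr rfl hval
  rw [h3, Multiset.nodup_map_iff_of_injective (fun x y h => mul_left_cancel₀ hne h),
    Multiset.nodup_iff_count_le_one]
  intro b
  rw [count_roots]
  by_contra hcon
  push Not at hcon
  have h5 : 1 < (derivative (fp (cst N))).rootMultiplicity b := hcon
  rw [one_lt_rootMultiplicity_iff_isRoot hd0] at h5
  have h6 := hroot b ((mem_roots hd0).2 h5.1)
  have hb0 : b ≠ 0 := by
    rintro rfl
    rw [zero_pow (by omega)] at h6
    exact hN0 (inv_eq_zero.1 (neg_eq_zero.1 h6.symm))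
  have h7 := h5.2
  rw [IsRoot, hder] at h7
  simp only [derivative_add, derivative_mul, derivative_C, zero_mul, zero_add, derivative_one,
    add_zero, derivative_X_pow, eval_mul, eval_C, eval_pow, eval_X] at h7
  rcases mul_eq_zero.1 h7 with h8 | h8
  · exact hN0 h8
  · rcases mul_eq_zero.1 h8 with h9 | h9
    · have h10 : ((N - 1 : ℕ) : ℂ) = 0 := h9
      have h11 : N - 1 = 0 := by exact_mod_cast h10
      omega
    · exact pow_ne_zero _ hb0 h9

/-- few coefficient vectors with multiple critical values -/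
theorem Ee_zeros {N : ℕ} (hN : 2 ≤ N) (A : Type) [CommRing A] [IsDomain A] [CharZero A]
    [DecidableEq A] : ∃ τ : ℕ, ∀ S : Finset A, S.Nonempty →
      ((Fintype.piFinset fun _ : Fin (N + 1) => S).filter fun c => Ee c = 0).card ≤
        τ * S.card ^ N := by
  classical
  set P : MvPolynomial (Fin (N + 1)) ℤ := Ee (fun i : Fin (N + 1) =>
    (MvPolynomial.X i : MvPolynomial (Fin (N + 1)) ℤ)) with hP
  have hP0 : P ≠ 0 := by
    intro h
    apply Ee_cst hN
    rw [Ee_univ, ← hP, h, map_zero]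
  set Q : MvPolynomial (Fin (N + 1)) A := MvPolynomial.map (Int.castRingHom A) P with hQ
  have hQ0 : Q ≠ 0 := by
    rw [hQ, Ne, ← map_zero (MvPolynomial.map (Int.castRingHom A))]
    intro h
    exact hP0 (MvPolynomial.map_injective _ (RingHom.injective_int _) h)
  refine ⟨Q.totalDegree, fun S hS => ?_⟩
  have h1 := MvPolynomial.schwartz_zippel_totalDegree hQ0 S
  have h2 : ((Fintype.piFinset fun _ : Fin (N + 1) => S).filter fun c => Ee c = 0) =
      (Fintype.piFinset fun _ : Fin (N + 1) => S).filter fun c => MvPolynomial.eval c Q = 0 := by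
    refine Finset.filter_congr fun c _ => ?_
    rw [Ee_univ, ← hP, hQ, MvPolynomial.eval_map]
    rfl
  rw [h2]
  have hS0 : (0 : ℚ≥0) < S.card := by exact_mod_cast hS.card_pos
  rw [div_le_div_iff₀ (by positivity) hS0, pow_succ, ← mul_assoc] at h1
  have h3 := le_of_mul_le_mul_right h1 hS0
  exact_mod_cast h3

end nonzero

end Pool.Agent.K4H5.HF
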